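import Pool.Agent.H550R2.LP.CliqNum

set_option autoImplicit false
set_option linter.unusedSectionVars false

/-! Symmetric reductions from the clique problem: wide clauses. -/

namespace Pool.Agent.H550R2.Lin

open Finset Filter Pool.Agent.H550R2.Lift
open Pool.Agent.H30R2.NS (Clause Sat Satisfies)

/-- **Clauses whose width grows.** -/
theorem w1_wide (c : ℕ) (f : ℕ → ℕ) (k : ℕ) (hk : 16 * (c + 1) < k) :
    ∃ B, ∀ b, B ≤ b → ∀ (d : ℕ) (Y : Type) [Fintype Y],
      (2 * Fintype.card Y) ^ d * 2 ^ (k ^ 2 + 3) ≤ 2 ^ b →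
      ∀ F : RCRed k b d Y, F.size ≤ f k * ((k * 2 ^ b : ℕ) : ℝ) ^ c → ¬ F.OK := by
  set K : ℕ := f k * k ^ c with hK
  have hδ : (0 : ℝ) < ((k : ℝ) / 16 - (c + 1)) := by
    have h1 : ((16 * (c + 1) : ℕ) : ℝ) < k := by exact_mod_cast hk
    push_cast at h1
    linarith
  obtain ⟨B1, hB1⟩ := poly_lt ((k : ℝ) / 16 - (c + 1)) hδ K
  refine ⟨max k B1, fun b hb d Y _ hY F hsize hok => ?_⟩
  have hbk : k ≤ b := (le_max_left _ _).trans hb
  have hb1 := hB1 b ((le_max_right _ _).trans hb)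
  have hO : Fintype.card (Clause d Y) * 2 ^ (k ^ 2 + 3) ≤ 2 ^ b := by
    rw [card_clause]
    exact hY
  have h1 := clq_bound (by omega) hbk hO F.toRed _ (F.ok_toRed hok)
  rw [F.size_toRed] at h1
  have hsz : 0 ≤ F.size := by
    rw [← F.size_toRed]
    exact Finset.sum_nonneg fun ω _ => mul_nonneg (F.toRed.p_nonneg ω) (Nat.cast_nonneg _)
  have hO' : ((Fintype.card (Clause d Y) : ℕ) : ℝ) * 2 ^ (k ^ 2 + 3) ≤ 2 ^ b := by
    exact_mod_cast hO
  have h2 : (2 : ℝ) ^ (k ^ 2 + 3) * ((Fintype.card (Clause d Y) : ℕ) * F.size) ≤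
      (K : ℝ) * 2 ^ (((c : ℝ) + 1) * b) := by
    have e1 : (((k * 2 ^ b : ℕ) : ℝ)) ^ c = (k : ℝ) ^ c * 2 ^ ((c : ℝ) * b) := by
      push_cast
      rw [mul_pow, ← pow_mul, ← Real.rpow_natCast (2 : ℝ) (b * c)]
      congr 2
      push_cast
      ring
    rw [e1] at hsize
    have e2 : (2 : ℝ) ^ (((c : ℝ) + 1) * b) = 2 ^ b * 2 ^ ((c : ℝ) * b) := by
      rw [← Real.rpow_natCast (2 : ℝ) b, ← Real.rpow_add (by norm_num)]
      congr 1
      ring
    calc (2 : ℝ) ^ (k ^ 2 + 3) * ((Fintype.card (Clause d Y) : ℕ) * F.size) =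
          ((Fintype.card (Clause d Y) : ℕ) : ℝ) * 2 ^ (k ^ 2 + 3) * F.size := by ring
      _ ≤ 2 ^ b * (f k * ((k : ℝ) ^ c * 2 ^ ((c : ℝ) * b))) :=
          mul_le_mul hO' hsize hsz (by positivity)
      _ = (K : ℝ) * 2 ^ (((c : ℝ) + 1) * b) := by
          rw [e2, hK]
          push_cast
          ring
  have h3 : (2 : ℝ) ^ ((k : ℝ) * b / 16) =
      2 ^ (((k : ℝ) / 16 - (c + 1)) * b) * 2 ^ (((c : ℝ) + 1) * b) := by
    rw [← Real.rpow_add (by norm_num)]
    congr 1
    ring
  rw [h3] at h1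
  have h4 := le_of_mul_le_mul_right (h1.trans h2)
    (by positivity : (0 : ℝ) < 2 ^ (((c : ℝ) + 1) * b))
  have h5 : (1 : ℝ) ≤ ((b : ℝ) + 1) ^ K := by
    apply one_le_pow₀
    have : (0 : ℝ) ≤ b := Nat.cast_nonneg b
    linarith
  have h6 : (K : ℝ) ≤ K * ((b : ℝ) + 1) ^ K := le_mul_of_one_le_right (Nat.cast_nonneg _) h5
  linarith

section up

variable {k b : ℕ}

/-- the program that tests one entry of the input -/
def edgeLP (z : Ver k b × Ver k b) : LP (Ver k b × Ver k b) (Fin 0) where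
  L :=
    { carrier := {w | w.1 z = 1}
      smul_vsub_vadd_mem' := by
        rintro c ⟨v1, y1⟩ ⟨v2, y2⟩ ⟨v3, y3⟩ h1 h2 h3
        have e1 : v1 z = 1 := h1
        have e2 : v2 z = 1 := h2
        have e3 : v3 z = 1 := h3
        show c * (v1 z - v2 z) + v3 z = 1
        rw [e1, e2, e3]
        ring }

theorem edgeLP_mem (z : Ver k b × Ver k b) (v : Ver k b × Ver k b → ℝ) (y : Fin 0 → ℝ) :
    (v, y) ∈ (edgeLP z).L ↔ v z = 1 := Iff.rfl

theorem edgeLP_acc (z : Ver k b × Ver k b) (G : SimpleGraph (Ver k b)) :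
    (edgeLP z).Acc (adjV G) ↔ G.Adj z.1 z.2 := by
  have h1 : (edgeLP z).Acc (adjV G) ↔ adjV G z = 1 := by
    constructor
    · rintro ⟨y, _, h⟩
      exact (edgeLP_mem z _ y).1 h
    · intro h
      exact ⟨fun _ => 0, fun _ => le_refl _, (edgeLP_mem z _ _).2 h⟩
  rw [h1]
  unfold adjV
  by_cases h : G.Adj z.1 z.2
  · rw [if_pos h]
    exact ⟨fun _ => h, fun _ => rfl⟩
  · rw [if_neg h]
    exact ⟨fun h2 => absurd h2 (by norm_num), fun h2 => absurd h2 h⟩

theorem edgeLP_sym (z : Ver k b × Ver k b) (g : Equiv.Perm (Ver k b × Ver k b)) (hg : g z = z) :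
    (edgeLP z).IsAut g 1 := by
  intro v y
  rw [edgeLP_mem, edgeLP_mem]
  have : g.symm z = z := by
    rw [Equiv.symm_apply_eq]
    exact hg.symm
  rw [this]

/-- the action on the literals -/
def litA (k b : ℕ) :
    Multiplicative (Fin k × Fin b → ZMod 2) →* Equiv.Perm ((Fin k × Fin b) × ZMod 2) where
  toFun g := Equiv.prodShear (Equiv.refl _) fun v => Equiv.addRight (g.toAdd v)
  map_one' := by
    apply Equiv.ext
    rintro ⟨v, s⟩
    show (v, s + 0) = (v, s)
    rw [add_zero]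
  map_mul' := fun g h => by
    apply Equiv.ext
    rintro ⟨v, s⟩
    show (v, s + (g.toAdd v + h.toAdd v)) = (v, s + h.toAdd v + g.toAdd v)
    rw [add_comm (g.toAdd v), add_assoc]

theorem litA_apply (y : Fin k × Fin b → ZMod 2) (v : Fin k × Fin b) (s : ZMod 2) :
    litA k b (Multiplicative.ofAdd y) (v, s) = (v, s + y v) := rfl

/-- the clause that excludes two vertices -/
def clE (u w : Ver k b) : Clause (2 * b) (Fin k × Fin b) := fun l =>
  if (finProdFinEquiv.symm l).1 = 0 then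
    ((u.1, (finProdFinEquiv.symm l).2), u.2 (finProdFinEquiv.symm l).2 + 1)
  else ((w.1, (finProdFinEquiv.symm l).2), w.2 (finProdFinEquiv.symm l).2 + 1)

theorem clE_zero (u w : Ver k b) (κ : Fin b) :
    clE u w (finProdFinEquiv (0, κ)) = ((u.1, κ), u.2 κ + 1) := by
  unfold clE
  rw [Equiv.symm_apply_apply, if_pos rfl]

theorem clE_one (u w : Ver k b) (κ : Fin b) :
    clE u w (finProdFinEquiv (1, κ)) = ((w.1, κ), w.2 κ + 1) := by
  unfold clE
  rw [Equiv.symm_apply_apply, if_neg]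
  exact (by decide : ((1 : Fin 2) : Fin 2) ≠ 0)

theorem ver_ext {u w : Ver k b} (hb : 1 ≤ b)
    (h : ∀ κ, ((u.1, κ), u.2 κ + 1) = (((w.1, κ), w.2 κ + 1) : (Fin k × Fin b) × ZMod 2)) :
    u = w := by
  have h1 := h ⟨0, hb⟩
  apply Prod.ext
  · exact congrArg (fun z : (Fin k × Fin b) × ZMod 2 => z.1.1) h1
  · funext κ
    have h2 := congrArg (fun z : (Fin k × Fin b) × ZMod 2 => z.2) (h κ)
    exact add_right_cancel h2

theorem clE_inj (hb : 1 ≤ b) {z z' : Ver k b × Ver k b} (h : clE z.1 z.2 = clE z'.1 z'.2) :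
    z = z' := by
  apply Prod.ext
  · apply ver_ext hb
    intro κ
    rw [← clE_zero z.1 z.2 κ, ← clE_zero z'.1 z'.2 κ, h]
  · apply ver_ext hb
    intro κ
    rw [← clE_one z.1 z.2 κ, ← clE_one z'.1 z'.2 κ, h]

theorem zm_ne {a c : ZMod 2} (h : a ≠ c) : a = c + 1 := by
  revert a c
  decide

theorem zm_add_one (a : ZMod 2) : a ≠ a + 1 := by
  revert a
  decide

theorem sat_clE (x : Fin k × Fin b → ZMod 2) (u w : Ver k b) :
    Satisfies x (clE u w) ↔ (fun κ => x (u.1, κ)) ≠ u.2 ∨ (fun κ => x (w.1, κ)) ≠ w.2 := by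
  constructor
  · rintro ⟨l, hl⟩
    obtain ⟨⟨s, κ⟩, rfl⟩ := finProdFinEquiv.surjective l
    fin_cases s
    · left
      intro h
      have h2 := clE_zero u w κ
      have h1 : x (clE u w (finProdFinEquiv (0, κ))).1 = (clE u w (finProdFinEquiv (0, κ))).2 := hl
      rw [h2] at h1
      have h3 : x (u.1, κ) = u.2 κ := congrFun h κ
      have h4 : x (u.1, κ) = u.2 κ + 1 := h1
      rw [h3] at h4
      exact zm_add_one _ h4
    · right
      intro h
      have h2 := clE_one u w κ
      have h1 : x (clE u w (finProdFinEquiv (1, κ))).1 = (clE u w (finProdFinEquiv (1, κ))).2 := hl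
      rw [h2] at h1
      have h3 : x (w.1, κ) = w.2 κ := congrFun h κ
      have h4 : x (w.1, κ) = w.2 κ + 1 := h1
      rw [h3] at h4
      exact zm_add_one _ h4
  · rintro (h | h)
    · obtain ⟨κ, hκ⟩ := Function.ne_iff.1 h
      refine ⟨finProdFinEquiv (0, κ), ?_⟩
      rw [clE_zero]
      exact zm_ne hκ
    · obtain ⟨κ, hκ⟩ := Function.ne_iff.1 h
      refine ⟨finProdFinEquiv (1, κ), ?_⟩
      rw [clE_one]
      exact zm_ne hκ

open Classical in
/-- the reduction -/
noncomputable def upRed (k b : ℕ) : CRed k b (2 * b) (Fin k × Fin b) where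
  ρ := litA k b
  alg := fun c =>
    if h : ∃ z : Ver k b × Ver k b, z.1.1 ≠ z.2.1 ∧ c = clE z.1 z.2 then
      LAlg.test 0 (edgeLP h.choose) (LAlg.out true) (LAlg.out false)
    else LAlg.out false
  sym := by
    intro c y hy
    by_cases h : ∃ z : Ver k b × Ver k b, z.1.1 ≠ z.2.1 ∧ c = clE z.1 z.2
    · rw [dif_pos h]
      refine ⟨⟨1, edgeLP_sym _ _ ?_⟩, trivial, trivial⟩
      obtain ⟨_, h2⟩ := h.choose_spec
      set z := h.choose with hz
      have key1 : ∀ κ, y (z.1.1, κ) = 0 := by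
        intro κ
        have h3 := hy (finProdFinEquiv (0, κ))
        rw [h2, clE_zero, litA_apply] at h3
        have h4 := congrArg (fun t : (Fin k × Fin b) × ZMod 2 => t.2) h3
        exact add_eq_left.1 h4
      have key2 : ∀ κ, y (z.2.1, κ) = 0 := by
        intro κ
        have h3 := hy (finProdFinEquiv (1, κ))
        rw [h2, clE_one, litA_apply] at h3
        have h4 := congrArg (fun t : (Fin k × Fin b) × ZMod 2 => t.2) h3
        exact add_eq_left.1 h4
      apply Prod.ext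
      · apply Prod.ext
        · rfl
        · show (z.1.2 + fun κ => y (z.1.1, κ)) = z.1.2
          funext κ
          rw [Pi.add_apply, key1, add_zero]
      · apply Prod.ext
        · rfl
        · show (z.2.2 + fun κ => y (z.2.1, κ)) = z.2.2
          funext κ
          rw [Pi.add_apply, key2, add_zero]
    · rw [dif_neg h]
      trivial

theorem mem_upRed (hb : 1 ≤ b) (G : SimpleGraph (Ver k b)) (c : Clause (2 * b) (Fin k × Fin b)) :
    c ∈ (upRed k b).cnf G ↔ ∃ z : Ver k b × Ver k b, z.1.1 ≠ z.2.1 ∧ ¬ G.Adj z.1 z.2 ∧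
      c = clE z.1 z.2 := by
  classical
  show ((upRed k b).alg c).run (adjV G) = true ↔ _
  by_cases h : ∃ z : Ver k b × Ver k b, z.1.1 ≠ z.2.1 ∧ c = clE z.1 z.2
  · have e1 : (upRed k b).alg c = LAlg.test 0 (edgeLP h.choose) (LAlg.out true)
        (LAlg.out false) := dif_pos h
    rw [e1]
    obtain ⟨h1, h2⟩ := h.choose_spec
    set z := h.choose with hz
    show (if (edgeLP z).Acc (adjV G) then (LAlg.out false).run (adjV G)
      else (LAlg.out true).run (adjV G)) = true ↔ _
    constructor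
    · intro h3
      refine ⟨z, h1, fun h4 => ?_, h2⟩
      rw [if_pos ((edgeLP_acc z G).2 h4)] at h3
      exact Bool.false_ne_true h3
    · rintro ⟨z', h3, h4, h5⟩
      have h6 : z = z' := clE_inj hb (h2.symm.trans h5)
      rw [if_neg]
      · rfl
      · rw [edgeLP_acc, h6]
        exact h4
  · have e1 : (upRed k b).alg c = LAlg.out false := dif_neg h
    rw [e1]
    constructor
    · intro h3
      exact absurd h3 Bool.false_ne_true
    · rintro ⟨z', h3, h4, h5⟩
      exact absurd ⟨z', h3, h5⟩ h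

theorem upRed_size : (upRed k b).size = 0 := by
  classical
  apply Finset.sum_eq_zero
  intro c _
  by_cases h : ∃ z : Ver k b × Ver k b, z.1.1 ≠ z.2.1 ∧ c = clE z.1 z.2
  · have e1 : (upRed k b).alg c = LAlg.test 0 (edgeLP h.choose) (LAlg.out true)
        (LAlg.out false) := dif_pos h
    rw [e1]
    rfl
  · have e1 : (upRed k b).alg c = LAlg.out false := dif_neg h
    rw [e1]
    rfl

theorem upRed_ok (hb : 1 ≤ b) (G : SimpleGraph (Ver k b)) (hG : Partite G) :
    Sat ((upRed k b).cnf G) ↔ HasClq G := by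
  classical
  constructor
  · rintro ⟨x, hx⟩
    let u : Fin k → Ver k b := fun i => (i, fun κ => x (i, κ))
    have hu : Function.Injective u := fun i j h => congrArg Prod.fst h
    have hadj : ∀ i j, i ≠ j → G.Adj (u i) (u j) := by
      intro i j hij
      by_contra hn
      have h1 := hx (clE (u i) (u j)) ((mem_upRed hb G _).2 ⟨(u i, u j), hij, hn, rfl⟩)
      rw [sat_clE] at h1
      rcases h1 with h1 | h1
      · exact h1 rfl
      · exact h1 rfl
    refine ⟨univ.image u, ?_, ?_⟩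
    · intro a ha a' ha' hne
      rw [Finset.mem_coe, Finset.mem_image] at ha ha'
      obtain ⟨i, _, rfl⟩ := ha
      obtain ⟨j, _, rfl⟩ := ha'
      exact hadj i j fun h => hne (by rw [h])
    · rw [Finset.card_image_of_injective _ hu, Finset.card_univ, Fintype.card_fin]
  · rintro ⟨S, hS, hc⟩
    have hinj : Set.InjOn (fun v : Ver k b => v.1) (S : Set (Ver k b)) := by
      intro a ha a' ha' h
      by_contra hne
      exact hG a a' (hS ha ha' hne) h
    have himg : S.image (fun v : Ver k b => v.1) = univ := by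
      apply Finset.eq_univ_of_card
      rw [Finset.card_image_of_injOn hinj, hc, Fintype.card_fin]
    have hex : ∀ i : Fin k, ∃ v ∈ S, v.1 = i := by
      intro i
      have h1 : i ∈ S.image (fun v : Ver k b => v.1) := by
        rw [himg]
        exact Finset.mem_univ i
      obtain ⟨v, hv, h2⟩ := Finset.mem_image.1 h1
      exact ⟨v, hv, h2⟩
    choose v hv hvi using hex
    refine ⟨fun z => (v z.1).2 z.2, fun c hc' => ?_⟩
    obtain ⟨z, h1, h2, rfl⟩ := (mem_upRed hb G c).1 hc'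
    rw [sat_clE]
    by_contra hn
    rw [not_or, not_not, not_not] at hn
    obtain ⟨h3, h4⟩ := hn
    have e1 : v z.1.1 = z.1 := by
      apply Prod.ext
      · exact hvi _
      · exact h3
    have e2 : v z.2.1 = z.2 := by
      apply Prod.ext
      · exact hvi _
      · exact h4
    apply h2
    rw [← e1, ← e2]
    apply hS (hv _) (hv _)
    intro h5
    have h6 := congrArg Prod.fst h5
    rw [hvi, hvi] at h6
    exact h1 h6

end up

end Pool.Agent.H550R2.Lin
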