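import Pool.Agent.H550R2.LP.RedDefs

set_option autoImplicit false

/-! Distillation of many instances of `k`-SAT: definitions. -/

namespace Pool.Agent.H550R2.Lin

open Finset Pool.Agent.H550R2.Lift
open Pool.Agent.H30R2.NS (Clause neg Sat Small)

variable {t k n : ℕ}

/-- The negation patterns of the variables of the `t` instances, acting on the pairs (number of the
instance, clause). -/
def nB (k : ℕ) (y : Fin t × Fin n → ZMod 2) : Equiv.Perm (Fin t × Clause k (Fin n)) :=
  Equiv.prodShear (Equiv.refl _) fun i => neg fun v => y (i, v)

/-- The input vector of `t` formulas. -/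
noncomputable def indB (Φ : Fin t → Set (Clause k (Fin n))) : Fin t × Clause k (Fin n) → ℝ :=
  fun z => ind (Φ z.1) z.2

open Classical in
/-- The answers for the `t` formulas. -/
noncomputable def ans (Φ : Fin t → Set (Clause k (Fin n))) : Fin t → Bool :=
  fun i => decide (Sat (Φ i))

/-- The Boolean function depends on each argument. -/
def Dep (g : (Fin t → Bool) → Bool) : Prop :=
  ∀ i, ∃ a, g (Function.update a i true) ≠ g (Function.update a i false)

/-- The random reduction computes, up to errors of probability at most `1 / 3`, a string that lies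
in `L` if and only if the Boolean function `g` of the answers for the `t` formulas is true; the
formulas are `k`-CNFs with `n` variables and at most `2 ^ (k - 1) * (n + 1)` clauses. -/
def RRed.Distills {t k n : ℕ} {O : Type}
    (F : RRed (Fin t × Clause k (Fin n)) O (Fin t × Fin n) (nB k)) (L : Set (O → Bool))
    (g : (Fin t → Bool) → Bool) : Prop :=
  ∀ Φ : Fin t → Set (Clause k (Fin n)),
    (∀ i, Φ i ∈ Small k (Fin n) (2 ^ (k - 1) * (n + 1))) →
    2 / 3 ≤ F.correct L (indB Φ) (g (ans Φ) = true)

end Pool.Agent.H550R2.Lin
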