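import Pool.Agent.H550R2.LP.Outp
import Pool.Agent.H550R2.LP.DistDefs
import Pool.Agent.H550R2.LP.Sat
import Pool.Agent.H550R2.Neg.Out

set_option autoImplicit false
set_option linter.unusedSectionVars false

/-! Distillation of many instances of `k`-SAT by reductions with symmetric linear programs. -/

namespace Pool.Agent.H550R2.Lin

open Finset Pool.Agent.H550R2.Lift
open Pool.Agent.H550R2.Neg (rowT pr_rowT act idE)
open Pool.Agent.H30R2.NS (A A_apply pp pp_nonneg Clause Phi neg neg_apply neg_add Sat Satisfies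
  Small phi_card sat_phi_zero exists_unsat)

section blocks

variable {t k n m : ℕ}

theorem nB_add (y y' : Fin t × Fin n → ZMod 2) : nB k (y + y') = nB k y * nB k y' := by
  apply Equiv.ext
  rintro ⟨i, c⟩
  show (i, neg (fun v => (y + y') (i, v)) c) =
    (i, neg (fun v => y (i, v)) (neg (fun v => y' (i, v)) c))
  have h : (fun v => (y + y') (i, v)) = (fun v => y (i, v)) + fun v => y' (i, v) := rfl
  rw [h, neg_add]
  rfl

/-- a formula that is invariant under all negations: satisfiable for `true`, unsatisfiable for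
`false` -/
def fil (v0 : Fin n) (a : Bool) : Set (Clause k (Fin n)) :=
  {c | a = false ∧ ∀ l, (c l).1 = v0}

theorem mem_fil (v0 : Fin n) (a : Bool) (c : Clause k (Fin n)) :
    c ∈ fil v0 a ↔ a = false ∧ ∀ l, (c l).1 = v0 := Iff.rfl

theorem fil_neg (v0 : Fin n) (a : Bool) (z : Fin n → ZMod 2) (c : Clause k (Fin n)) :
    ind (fil v0 a) ((neg z).symm c) = ind (fil v0 a) c := by
  unfold ind
  have h : (neg z).symm c ∈ fil v0 a ↔ c ∈ fil v0 a := Iff.rfl
  by_cases h1 : c ∈ fil v0 a
  · rw [Set.indicator_of_mem h1, Set.indicator_of_mem (h.2 h1)]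
    rfl
  · rw [Set.indicator_of_notMem h1, Set.indicator_of_notMem (fun h2 => h1 (h.1 h2))]

theorem sat_fil (v0 : Fin n) (a : Bool) : Sat (fil (k := k) v0 a) ↔ a = true := by
  constructor
  · rintro ⟨x, hx⟩
    by_contra h
    have ha : a = false := by
      cases a
      · rfl
      · exact absurd rfl h
    obtain ⟨l, hl⟩ := hx (fun _ => (v0, x v0 + 1)) ⟨ha, fun _ => rfl⟩
    have h1 : x v0 = x v0 + 1 := hl
    have h2 : ∀ z : ZMod 2, z ≠ z + 1 := by decide
    exact h2 _ h1
  · intro ha
    refine ⟨0, fun c hc => ?_⟩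
    rw [mem_fil, ha] at hc
    exact absurd hc.1 (by decide)

theorem fil_small (hk : 1 ≤ k) (hn : 1 ≤ n) (v0 : Fin n) (a : Bool) :
    fil v0 a ∈ Small k (Fin n) (2 ^ (k - 1) * (n + 1)) := by
  classical
  refine ⟨Set.toFinite _, ?_⟩
  have h1 : (fil (k := k) v0 a).ncard ≤ (Set.univ : Set (Fin k → ZMod 2)).ncard := by
    apply Set.ncard_le_ncard_of_injOn (fun c l => (c l).2) (fun _ _ => Set.mem_univ _)
    intro c hc c' hc' h
    funext l
    apply Prod.ext
    · rw [hc.2 l, hc'.2 l]
    · exact congrFun h l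
  rw [Set.ncard_univ, Nat.card_eq_fintype_card, Fintype.card_fun, ZMod.card, Fintype.card_fin]
    at h1
  refine h1.trans ?_
  obtain ⟨k', rfl⟩ : ∃ k', k = k' + 1 := ⟨k - 1, by omega⟩
  rw [pow_succ, Nat.add_sub_cancel]
  exact Nat.mul_le_mul_left _ (by omega)

/-- a system in block `i0`, and invariant formulas in the other blocks -/
def fam (v0 : Fin n) (a : Fin t → Bool) (i0 : Fin t) (T : Fin m × Fin k → Fin n)
    (b : Fin m → ZMod 2) : Fin t → Set (Clause k (Fin n)) :=
  fun i => if i = i0 then Phi id T b else fil v0 (a i)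

theorem fam_self (v0 : Fin n) (a : Fin t → Bool) (i0 : Fin t) (T : Fin m × Fin k → Fin n)
    (b : Fin m → ZMod 2) : fam v0 a i0 T b i0 = Phi id T b := if_pos rfl

theorem fam_ne (v0 : Fin n) (a : Fin t → Bool) {i i0 : Fin t} (h : i ≠ i0)
    (T : Fin m × Fin k → Fin n) (b : Fin m → ZMod 2) : fam v0 a i0 T b i = fil v0 (a i) :=
  if_neg h

/-- the support -/
def sp (x : Fin m → ZMod 2) : Finset (Fin m) := univ.filter fun j => x j ≠ 0

/-- the indicator -/
def one (S : Finset (Fin m)) : Fin m → ZMod 2 := fun j => if j ∈ S then 1 else 0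

theorem mem_sp (x : Fin m → ZMod 2) (j : Fin m) : j ∈ sp x ↔ x j ≠ 0 := by
  unfold sp
  rw [Finset.mem_filter]
  exact ⟨fun h => h.2, fun h => ⟨Finset.mem_univ _, h⟩⟩

theorem sp_one (S : Finset (Fin m)) : sp (one S) = S := by
  ext j
  rw [mem_sp]
  unfold one
  by_cases h : j ∈ S
  · rw [if_pos h]
    exact ⟨fun _ => h, fun _ => one_ne_zero⟩
  · rw [if_neg h]
    exact ⟨fun h' => absurd rfl h', fun h' => absurd h' h⟩

theorem sum_sp (x : Fin m → ZMod 2) (w : Fin m → ZMod 2) : ∑ j, x j * w j = ∑ j ∈ sp x, w j := by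
  rw [← Finset.sum_subset (Finset.subset_univ (sp x))]
  · apply Finset.sum_congr rfl
    intro j hj
    have h1 : x j = 1 := (zmod2_cases (x j)).resolve_left ((mem_sp x j).1 hj)
    rw [h1, one_mul]
  · intro j _ hj
    have h1 : x j = 0 := by
      by_contra h
      exact hj ((mem_sp x j).2 h)
    rw [h1, zero_mul]

/-- the length of a combination -/
def wS (x : Fin m → ZMod 2) : ℕ := (sp x).card

theorem wS_add (x y : Fin m → ZMod 2) : wS (x + y) ≤ wS x + wS y := by
  have h1 : sp (x + y) ⊆ sp x ∪ sp y := by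
    intro j hj
    rw [Finset.mem_union, mem_sp, mem_sp]
    by_contra hn
    push_neg at hn
    rw [mem_sp, Pi.add_apply, hn.1, hn.2, add_zero] at hj
    exact hj rfl
  exact (Finset.card_le_card h1).trans (Finset.card_union_le _ _)

theorem wS_zero : wS (0 : Fin m → ZMod 2) = 0 := by
  unfold wS
  rw [Finset.card_eq_zero, Finset.eq_empty_iff_forall_notMem]
  intro j hj
  exact (mem_sp 0 j).1 hj rfl

/-- the combination of the rows of block `i0` -/
def colT (i0 : Fin t) (T : Fin m × Fin k → Fin n) :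
    (Fin m → ZMod 2) →+ (Fin t × Fin n → ZMod 2) where
  toFun x := fun z => if z.1 = i0 then ∑ j, x j * A T (Pi.single z.2 1) j else 0
  map_zero' := by
    funext z
    show (if z.1 = i0 then ∑ j, (0 : Fin m → ZMod 2) j * A T (Pi.single z.2 1) j else 0) = 0
    rw [Finset.sum_eq_zero (fun j _ => by rw [Pi.zero_apply, zero_mul]), ite_self]
  map_add' := fun x y => by
    funext z
    show (if z.1 = i0 then ∑ j, (x + y) j * A T (Pi.single z.2 1) j else 0) =
      (if z.1 = i0 then ∑ j, x j * A T (Pi.single z.2 1) j else 0) +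
      if z.1 = i0 then ∑ j, y j * A T (Pi.single z.2 1) j else 0
    by_cases h : z.1 = i0
    · rw [if_pos h, if_pos h, if_pos h, ← Finset.sum_add_distrib]
      apply Finset.sum_congr rfl
      intro j _
      rw [Pi.add_apply, add_mul]
    · rw [if_neg h, if_neg h, if_neg h, add_zero]

theorem colT_apply (i0 : Fin t) (T : Fin m × Fin k → Fin n) (x : Fin m → ZMod 2)
    (z : Fin t × Fin n) : colT i0 T x z = if z.1 = i0 then rowT T (sp x) z.2 else 0 := by
  show (if z.1 = i0 then ∑ j, x j * A T (Pi.single z.2 1) j else 0) = _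
  rw [sum_sp]
  rfl

theorem pr_colT (i0 : Fin t) (T : Fin m × Fin k → Fin n) (x : Fin m → ZMod 2)
    (y : Fin t × Fin n → ZMod 2) :
    pr (colT i0 T x) y = ∑ j ∈ sp x, A T (fun v => y (i0, v)) j := by
  rw [← pr_rowT]
  unfold pr
  rw [Fintype.sum_prod_type, Finset.sum_eq_single i0]
  · apply Finset.sum_congr rfl
    intro v _
    rw [colT_apply, if_pos rfl]
  · intro i _ hi
    apply Finset.sum_eq_zero
    intro v _
    rw [colT_apply, if_neg hi, zero_mul]
  · intro h
    exact absurd (Finset.mem_univ _) h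

/-- the sign of a combination -/
def uB (b : Fin m → ZMod 2) : (Fin m → ZMod 2) →+ ZMod 2 where
  toFun x := ∑ j, x j * b j
  map_zero' := Finset.sum_eq_zero (fun j _ => by rw [Pi.zero_apply, zero_mul])
  map_add' := fun x y => by
    rw [← Finset.sum_add_distrib]
    apply Finset.sum_congr rfl
    intro j _
    rw [Pi.add_apply, add_mul]

theorem uB_apply (b x : Fin m → ZMod 2) : uB b x = ∑ j ∈ sp x, b j := sum_sp x b

/-- **The two families are linked.** -/
theorem fam_linked (v0 : Fin n) (a : Fin t → Bool) (i0 : Fin t) {T : Fin m × Fin k → Fin n}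
    (b : Fin m → ZMod 2) {τ : ℕ} (hτ : 1 ≤ τ) (hB : Base T τ) :
    Linked (nB k) (colT i0 T) (uB b) wS τ (indB (fam v0 a i0 T 0)) (indB (fam v0 a i0 T b)) := by
  classical
  refine ⟨?_⟩
  rintro ⟨i, c⟩
  by_cases hi : i = i0
  · obtain ⟨α, β, S, hS, hv⟩ := phi_val (ι := id) Function.injective_id hτ hB c
    rw [hi]
    have key : ∀ (d : Fin m → ZMod 2) (y : Fin t × Fin n → ZMod 2),
        indB (fam v0 a i0 T d) ((nB k y).symm (i0, c)) =
          α + β * sg (∑ j ∈ S, (d + A T (fun v => y (i0, v))) j) := by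
      intro d y
      have h1 : indB (fam v0 a i0 T d) ((nB k y).symm (i0, c)) =
          ind (fam v0 a i0 T d i0) ((neg fun v => y (i0, v)).symm c) := rfl
      rw [h1, fam_self]
      have h2 := phi_shift (idE (Fin n)) T d (fun v => y (i0, v)) c
      have h3 : (act k (idE (Fin n)) (fun v => y (i0, v))) = neg (fun v => y (i0, v)) := rfl
      rw [h3] at h2
      rw [h2, hv]
    refine ⟨Bool, inferInstance, fun s => if s = true then β else α,
      fun s => if s = true then one S else 0, ?_, ?_, ?_⟩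
    · intro ν
      cases ν
      · show wS (0 : Fin m → ZMod 2) ≤ τ
        rw [wS_zero]
        exact Nat.zero_le _
      · show (sp (one S)).card ≤ τ
        rw [sp_one]
        exact hS.trans hτ
    · intro y
      rw [key, Fintype.sum_bool]
      show _ = β * sg (pr (colT i0 T (one S)) y) + α * sg (pr (colT i0 T 0) y)
      rw [map_zero, pr_zero_left, sg_zero, pr_colT, sp_one, zero_add]
      ring
    · intro y
      rw [key, Fintype.sum_bool]
      show _ = β * sg (uB b (one S)) * sg (pr (colT i0 T (one S)) y) +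
        α * sg (uB b 0) * sg (pr (colT i0 T 0) y)
      rw [map_zero, map_zero, pr_zero_left, sg_zero, pr_colT, sp_one, uB_apply, sp_one]
      have h1 : ∑ j ∈ S, (b + A T fun v => y (i0, v)) j =
          ∑ j ∈ S, b j + ∑ j ∈ S, A T (fun v => y (i0, v)) j := by
        rw [← Finset.sum_add_distrib]
        rfl
      rw [h1, sg_add]
      ring
  · have key : ∀ (d : Fin m → ZMod 2) (y : Fin t × Fin n → ZMod 2),
        indB (fam v0 a i0 T d) ((nB k y).symm (i, c)) = ind (fil v0 (a i)) c := by
      intro d y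
      have h1 : indB (fam v0 a i0 T d) ((nB k y).symm (i, c)) =
          ind (fam v0 a i0 T d i) ((neg fun v => y (i, v)).symm c) := rfl
      rw [h1, fam_ne v0 a hi, fil_neg]
    refine ⟨Unit, inferInstance, fun _ => ind (fil v0 (a i)) c, fun _ => 0, ?_, ?_, ?_⟩
    · intro _
      rw [wS_zero]
      exact Nat.zero_le _
    · intro y
      rw [key, Fintype.sum_unique, map_zero, pr_zero_left, sg_zero, mul_one]
    · intro y
      rw [key, Fintype.sum_unique, map_zero, map_zero, pr_zero_left, sg_zero, mul_one, mul_one]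

theorem ans_fam (v0 : Fin n) (a : Fin t → Bool) (i0 : Fin t) (T : Fin m × Fin k → Fin n)
    (b : Fin m → ZMod 2) (c : Bool) (hc : Sat (Phi id T b) ↔ c = true) :
    ans (fam v0 a i0 T b) = Function.update a i0 c := by
  classical
  funext i
  unfold ans
  by_cases hi : i = i0
  · rw [hi, Function.update_self, fam_self]
    by_cases h : Sat (Phi id T b)
    · rw [decide_eq_true h]
      exact (hc.1 h).symm
    · rw [decide_eq_false h]
      cases c
      · rfl
      · exact absurd (hc.2 rfl) h
  · rw [Function.update_of_ne hi, fam_ne v0 a hi]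
    by_cases h : Sat (fil (k := k) v0 (a i))
    · rw [decide_eq_true h]
      exact ((sat_fil v0 _).1 h).symm
    · rw [decide_eq_false h]
      have h1 := fun h2 => h ((sat_fil v0 (a i)).2 h2)
      cases h3 : a i
      · rfl
      · exact absurd h3 h1

open Classical in
/-- the blocks in which a functional is revealed -/
noncomputable def Red.cov {I O : Type} [Fintype O] {B : (Fin t × Fin n → ZMod 2) → Equiv.Perm I}
    (F : Red I O (Fin t × Fin n) B) : Finset (Fin t) :=
  univ.filter fun i => ∃ p ∈ F.rev, p ≠ 0 ∧ ∀ z, z.1 ≠ i → p z = 0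

theorem Red.card_cov {I O : Type} [Fintype O] {B : (Fin t × Fin n → ZMod 2) → Equiv.Perm I}
    (F : Red I O (Fin t × Fin n) B) : F.cov.card ≤ Fintype.card O := by
  classical
  have h : ∀ i ∈ F.cov, ∃ p ∈ F.rev, p ≠ 0 ∧ ∀ z, z.1 ≠ i → p z = 0 := fun i hi =>
    (Finset.mem_filter.1 hi).2
  choose! p hp hp0 hpz using h
  refine le_trans ?_ F.card_rev
  apply Finset.card_le_card_of_injOn p (fun i hi => hp i hi)
  intro i hi j hj hij
  by_contra hne
  apply hp0 i hi
  funext z
  by_cases h1 : z.1 = i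
  · rw [hij]
    exact hpz j hj z (by rw [h1]; exact hne)
  · exact hpz i hi z h1

open Classical in
/-- **The averaging argument.** -/
theorem dist_core {O : Type} [Fintype O] (hk : 1 ≤ k) (hn : 1 ≤ n)
    (F : RRed (Fin t × Clause k (Fin n)) O (Fin t × Fin n) (nB k)) (L : Set (O → Bool))
    (g : (Fin t → Bool) → Bool) (hg : Dep g)
    (hF : ∀ Φ : Fin t → Set (Clause k (Fin n)),
      (∀ i, Φ i ∈ Small k (Fin n) (2 ^ (k - 1) * (n + 1))) →
      2 / 3 ≤ F.correct L (indB Φ) (g (ans Φ) = true))
    (τ : ℕ) (hτ : 1 ≤ τ) (q1 q2 : ℝ)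
    (hq1 : ∑ J ∈ (univ : Finset (Finset (Fin (n + 1)))).filter
      (fun J => τ < J.card ∧ J.card ≤ 2 * τ), pp (Fin n) (k * J.card) ≤ q1)
    (hq2 : ∑ J ∈ (univ : Finset (Finset (Fin (n + 1)))).filter
      (fun J => 1 ≤ J.card ∧ J.card ≤ τ), pp (Fin n) (k * J.card) ≤ q2) :
    1 / 3 * (t : ℝ) ≤ Fintype.card O + t * ((Fintype.card O * F.size + 1) * q1 + q2) := by
  let v0 : Fin n := ⟨0, hn⟩
  have hq10 : 0 ≤ q1 := by
    refine le_trans ?_ hq1
    exact Finset.sum_nonneg fun J _ => pp_nonneg _
  have hq20 : 0 ≤ q2 := by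
    refine le_trans ?_ hq2
    exact Finset.sum_nonneg fun J _ => pp_nonneg _
  set M : ℝ := ((Fintype.card (Fin (n + 1) × Fin k → Fin n) : ℕ) : ℝ) with hM
  have hM0 : 0 < M := by
    have : Nonempty (Fin n) := ⟨v0⟩
    rw [hM]
    exact_mod_cast (Fintype.card_pos : 0 < Fintype.card (Fin (n + 1) × Fin k → Fin n))
  choose a ha using hg
  choose bu hbu using fun T : Fin (n + 1) × Fin k → Fin n =>
    exists_unsat (ι := id) (by rw [Fintype.card_fin]; exact Nat.lt_succ_self n) T
  let Q : F.Ω → Fin t → Finset (Fin n → ZMod 2) := fun ω i0 =>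
    (F.red ω).allC.image fun p v => p (i0, v)
  let Bad : Fin t → (Fin (n + 1) × Fin k → Fin n) → F.Ω → Prop := fun i0 T ω =>
    i0 ∈ (F.red ω).cov ∨ ¬ (Base T τ ∧ ∀ q ∈ Q ω i0, ∀ S : Finset (Fin (n + 1)),
      τ < S.card → S.card ≤ 2 * τ → rowT T S ≠ q)
  -- outputs agree
  have hout : ∀ i0 T ω, ¬ Bad i0 T ω →
      (F.red ω).out (indB (fam v0 (a i0) i0 T 0)) =
      (F.red ω).out (indB (fam v0 (a i0) i0 T (bu T))) := by
    intro i0 T ω hbad
    have hb1 : i0 ∉ (F.red ω).cov := fun h => hbad (Or.inl h)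
    have hb2 : Base T τ ∧ ∀ q ∈ Q ω i0, ∀ S : Finset (Fin (n + 1)),
      τ < S.card → S.card ≤ 2 * τ → rowT T S ≠ q := by
      by_contra h
      exact hbad (Or.inr h)
    refine (F.red ω).out_eq nB_add (wt := wS) wS_add wS_zero (t := τ) ?_ ?_
      (fam_linked v0 (a i0) i0 (bu T) hτ hb2.1)
    · intro x hx hrev
      have h0 : colT i0 T x = 0 := by
        by_contra hne
        apply hb1
        refine Finset.mem_filter.2 ⟨Finset.mem_univ _, _, hrev, hne, ?_⟩
        intro z hz
        rw [colT_apply, if_neg hz]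
      have h1 : rowT T (sp x) = 0 := by
        funext v
        have h2 := congrFun h0 (i0, v)
        rw [colT_apply, if_pos rfl] at h2
        exact h2
      have h3 : (sp x).card = 0 := by
        by_contra hne
        rcases le_or_gt (sp x).card τ with h5 | h5
        · exact hb2.1.low _ (Nat.one_le_iff_ne_zero.2 hne) h5 h1
        · exact hb2.1.gap0 _ h5 hx h1
      rw [uB_apply, Finset.card_eq_zero.1 h3, Finset.sum_empty]
    · intro x hx hx' hmem
      refine hb2.2 (rowT T (sp x)) ?_ (sp x) hx hx' rfl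
      refine Finset.mem_image.2 ⟨_, hmem, ?_⟩
      funext v
      rw [colT_apply, if_pos rfl]
  -- the bound for each pair
  have hpair : ∀ i0 T, 4 / 3 ≤ 1 + ∑ ω, F.p ω * (if Bad i0 T ω then (1 : ℝ) else 0) := by
    intro i0 T
    have hs0 : ∀ b, ∀ i, fam v0 (a i0) i0 T b i ∈ Small k (Fin n) (2 ^ (k - 1) * (n + 1)) := by
      intro b i
      by_cases hi : i = i0
      · rw [hi, fam_self]
        exact phi_card hk T b
      · rw [fam_ne v0 (a i0) hi]
        exact fil_small hk hn v0 _
    have h1 := hF _ (hs0 0)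
    have h2 := hF _ (hs0 (bu T))
    rw [ans_fam v0 (a i0) i0 T 0 true ⟨fun _ => rfl, fun _ => sat_phi_zero T⟩] at h1
    rw [ans_fam v0 (a i0) i0 T (bu T) false
      ⟨fun h => absurd h (hbu T), fun h => absurd h (by decide)⟩] at h2
    have h3 := F.both L (indB (fam v0 (a i0) i0 T 0)) (indB (fam v0 (a i0) i0 T (bu T)))
      (g (Function.update (a i0) i0 true) = true) (g (Function.update (a i0) i0 false) = true)
      (by
        intro h
        apply ha i0
        cases h4 : g (Function.update (a i0) i0 true) <;>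
          cases h5 : g (Function.update (a i0) i0 false)
        · rfl
        · rw [h4, h5] at h
          exact absurd (h.2 rfl) (by decide)
        · rw [h4, h5] at h
          exact absurd (h.1 rfl) (by decide)
        · rfl) (Bad i0 T) (hout i0 T)
    linarith
  -- counting
  have hcount : ∀ ω, ∑ i0 : Fin t, ∑ T : Fin (n + 1) × Fin k → Fin n,
      (if Bad i0 T ω then (1 : ℝ) else 0) ≤
      (Fintype.card O + t * ((Fintype.card O * (F.red ω).size + 1) * q1 + q2)) * M := by
    intro ω
    have h1 : ∀ i0 : Fin t, ∑ T : Fin (n + 1) × Fin k → Fin n,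
        (if Bad i0 T ω then (1 : ℝ) else 0) ≤
        (if i0 ∈ (F.red ω).cov then M else 0) +
          ((Fintype.card O * (F.red ω).size + 1) * q1 + q2) * M := by
      intro i0
      have hpos : 0 ≤ ((Fintype.card O * (F.red ω).size + 1) * q1 + q2) * M := by positivity
      by_cases hc : i0 ∈ (F.red ω).cov
      · rw [if_pos hc]
        have h2 : ∑ T : Fin (n + 1) × Fin k → Fin n, (if Bad i0 T ω then (1 : ℝ) else 0) ≤
            ∑ _T : Fin (n + 1) × Fin k → Fin n, (1 : ℝ) :=
          Finset.sum_le_sum fun T _ => by split_ifs <;> norm_num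
        rw [Finset.sum_const, Finset.card_univ, nsmul_eq_mul, mul_one] at h2
        linarith
      · rw [if_neg hc, zero_add]
        have h2 := base_bad (k := k) (m := n + 1) (Q ω i0) τ q1 q2 hq1 hq2
        have h3 : ∑ T : Fin (n + 1) × Fin k → Fin n, (if Bad i0 T ω then (1 : ℝ) else 0) =
            ((univ.filter fun T : Fin (n + 1) × Fin k → Fin n =>
              ¬ (Base T τ ∧ ∀ q ∈ Q ω i0, ∀ S : Finset (Fin (n + 1)),
              τ < S.card → S.card ≤ 2 * τ → rowT T S ≠ q)).card : ℝ) := by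
          rw [Finset.card_filter, Nat.cast_sum]
          apply Finset.sum_congr rfl
          intro T _
          have h4 : Bad i0 T ω ↔ ¬ (Base T τ ∧ ∀ q ∈ Q ω i0, ∀ S : Finset (Fin (n + 1)),
              τ < S.card → S.card ≤ 2 * τ → rowT T S ≠ q) :=
            ⟨fun h => h.resolve_left hc, fun h => Or.inr h⟩
          by_cases h5 : Bad i0 T ω
          · rw [if_pos h5, if_pos (h4.1 h5), Nat.cast_one]
          · rw [if_neg h5, if_neg (fun h => h5 (h4.2 h)), Nat.cast_zero]
        rw [h3]
        refine h2.trans (mul_le_mul_of_nonneg_right ?_ hM0.le)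
        have h6 : ((Q ω i0).card : ℝ) ≤ Fintype.card O * (F.red ω).size := by
          have h7 : (Q ω i0).card ≤ Fintype.card O * (F.red ω).size :=
            Finset.card_image_le.trans (F.red ω).card_allC
          exact_mod_cast h7
        have h8 : ((Q ω i0).card + 1 : ℝ) * q1 ≤ (Fintype.card O * (F.red ω).size + 1) * q1 :=
          mul_le_mul_of_nonneg_right (by linarith) hq10
        linarith
    have h9 := Finset.sum_le_sum fun i0 (_ : i0 ∈ (univ : Finset (Fin t))) => h1 i0
    rw [Finset.sum_add_distrib, Finset.sum_const, Finset.card_univ, Fintype.card_fin,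
      nsmul_eq_mul] at h9
    have h10 : ∑ i0 : Fin t, (if i0 ∈ (F.red ω).cov then M else 0) =
        ((F.red ω).cov.card : ℝ) * M := by
      rw [← Finset.sum_filter, Finset.filter_mem_eq_inter, Finset.univ_inter, Finset.sum_const,
        nsmul_eq_mul]
    have h11 : (((F.red ω).cov.card : ℕ) : ℝ) ≤ Fintype.card O := by
      exact_mod_cast (F.red ω).card_cov
    rw [h10] at h9
    have h12 := mul_le_mul_of_nonneg_right h11 hM0.le
    refine h9.trans ?_
    have h13 : (t : ℝ) * (((Fintype.card O * (F.red ω).size + 1) * q1 + q2) * M) =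
        (t * ((Fintype.card O * (F.red ω).size + 1) * q1 + q2)) * M := by ring
    rw [h13, add_mul]
    linarith
  have hsum : ∑ i0 : Fin t, ∑ T : Fin (n + 1) × Fin k → Fin n, (1 / 3 : ℝ) ≤
      ∑ i0 : Fin t, ∑ T : Fin (n + 1) × Fin k → Fin n,
        ∑ ω, F.p ω * (if Bad i0 T ω then (1 : ℝ) else 0) := by
    refine Finset.sum_le_sum fun i0 _ => Finset.sum_le_sum fun T _ => ?_
    have := hpair i0 T
    linarith
  have hswap : ∑ i0 : Fin t, ∑ T : Fin (n + 1) × Fin k → Fin n,
        ∑ ω, F.p ω * (if Bad i0 T ω then (1 : ℝ) else 0) =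
      ∑ ω, F.p ω * ∑ i0 : Fin t, ∑ T : Fin (n + 1) × Fin k → Fin n,
        (if Bad i0 T ω then (1 : ℝ) else 0) := by
    have h1 : ∀ i0 : Fin t, ∑ T : Fin (n + 1) × Fin k → Fin n,
        ∑ ω, F.p ω * (if Bad i0 T ω then (1 : ℝ) else 0) =
        ∑ ω, ∑ T : Fin (n + 1) × Fin k → Fin n, F.p ω * (if Bad i0 T ω then (1 : ℝ) else 0) :=
      fun i0 => Finset.sum_comm
    rw [Finset.sum_congr rfl (fun i0 _ => h1 i0), Finset.sum_comm]
    apply Finset.sum_congr rfl
    intro ω _
    rw [Finset.mul_sum]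
    apply Finset.sum_congr rfl
    intro i0 _
    rw [Finset.mul_sum]
  rw [hswap] at hsum
  have hfin : ∑ ω, F.p ω * ∑ i0 : Fin t, ∑ T : Fin (n + 1) × Fin k → Fin n,
        (if Bad i0 T ω then (1 : ℝ) else 0) ≤
      (Fintype.card O + t * ((Fintype.card O * F.size + 1) * q1 + q2)) * M := by
    calc _ ≤ ∑ ω, F.p ω *
          ((Fintype.card O + t * ((Fintype.card O * (F.red ω).size + 1) * q1 + q2)) * M) :=
          Finset.sum_le_sum fun ω _ => mul_le_mul_of_nonneg_left (hcount ω) (F.p_nonneg ω)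
      _ = ∑ ω, (F.p ω * ((Fintype.card O + t * (q1 + q2)) * M) +
            (F.p ω * (F.red ω).size) * (t * Fintype.card O * q1 * M)) :=
          Finset.sum_congr rfl fun ω _ => by ring
      _ = (Fintype.card O + t * (q1 + q2)) * M + F.size * (t * Fintype.card O * q1 * M) := by
          rw [Finset.sum_add_distrib, ← Finset.sum_mul, ← Finset.sum_mul, F.p_sum, one_mul]
          rfl
      _ = _ := by ring
  have h1 := hsum.trans hfin
  rw [Finset.sum_const, Finset.sum_const, Finset.card_univ, Finset.card_univ, Fintype.card_fin,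
    nsmul_eq_mul, nsmul_eq_mul] at h1
  have h2 : (1 / 3 * (t : ℝ)) * M ≤
      (Fintype.card O + t * ((Fintype.card O * F.size + 1) * q1 + q2)) * M := by
    refine le_trans (le_of_eq ?_) h1
    rw [hM]
    ring
  exact le_of_mul_le_mul_right h2 hM0

end blocks

end Pool.Agent.H550R2.Lin
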