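import Pool.Agent.H550R2.LP.Dist
import Pool.Agent.H550R2.LP.SatUp
import Pool.Agent.H30R2.NS.Main

set_option autoImplicit false
set_option linter.unusedSectionVars false

/-! The bounds for distillation, and the matching reduction. -/

namespace Pool.Agent.H550R2.Lin

open Finset Pool.Agent.H550R2.Lift
open Pool.Agent.H30R2.NS (A pp Clause neg Sat Small large_k three_q)

/-- **Distillation, all `k`.** -/
theorem dist_k : ∃ C : ℝ, ∀ k n t : ℕ, 3 ≤ k → k ≤ n → 0 < t → ∀ (O : Type) [Fintype O],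
    18 * Fintype.card O ≤ t →
    ∀ (F : RRed (Fin t × Clause k (Fin n)) O (Fin t × Fin n) (nB k)) (L : Set (O → Bool))
      (g : (Fin t → Bool) → Bool), Dep g → F.Distills L g →
    (2 : ℝ) ^ ((1 - C * (Real.log k ^ 2 / k)) * n) ≤ Fintype.card O * F.size + 1 := by
  classical
  refine ⟨10 ^ 6, fun k n t hk hn ht O _ hO F L g hg hF => ?_⟩
  have hk3 : (3 : ℝ) ≤ k := by exact_mod_cast hk
  have hkpos : (0 : ℝ) < k := by linarith
  have hrk : (k : ℝ) ≤ n := by exact_mod_cast hn
  have hL1 : 1 ≤ Real.log k := by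
    rw [Real.le_log_iff_exp_le hkpos]
    have := Real.exp_one_lt_d9
    linarith
  have hz1 : 1 ≤ (Fintype.card O : ℝ) * F.size + 1 := by
    have h1 : 0 ≤ (Fintype.card O : ℝ) * F.size := mul_nonneg (Nat.cast_nonneg _) F.size_nonneg
    linarith
  rcases Nat.lt_or_ge k (10 ^ 6) with hlt | hge
  · have h1 : (k : ℝ) ≤ 10 ^ 6 := by exact_mod_cast hlt.le
    have h2 : 1 ≤ 10 ^ 6 * (Real.log k ^ 2 / k) := by
      have h3 : 1 ≤ Real.log k ^ 2 := by nlinarith
      rw [← mul_div_assoc, le_div_iff₀ hkpos]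
      nlinarith
    have h4 : (1 - 10 ^ 6 * (Real.log k ^ 2 / k)) * (n : ℝ) ≤ 0 :=
      mul_nonpos_of_nonpos_of_nonneg (by linarith) (Nat.cast_nonneg _)
    calc (2 : ℝ) ^ ((1 - 10 ^ 6 * (Real.log k ^ 2 / k)) * (n : ℝ)) ≤ 2 ^ (0 : ℝ) :=
          Real.rpow_le_rpow_of_exponent_le (by norm_num) h4
      _ = 1 := Real.rpow_zero 2
      _ ≤ _ := hz1
  · obtain ⟨τ, q1, q2, hτ, hq1, hq2, hq2', hq1pos, hq1'⟩ := large_k hge hn
    have h0 := dist_core (by omega) (by omega) F L g hg hF τ hτ q1 q2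
      (le_trans (le_of_eq (Finset.sum_congr (Finset.filter_congr_decidable _ _ _)
        fun _ _ => rfl)) hq1)
      (le_trans (le_of_eq (Finset.sum_congr (Finset.filter_congr_decidable _ _ _)
        fun _ _ => rfl)) hq2)
    set z : ℝ := (Fintype.card O : ℝ) * F.size + 1 with hz
    have htR : (0 : ℝ) < t := by exact_mod_cast ht
    have hOR : 18 * (Fintype.card O : ℝ) ≤ t := by exact_mod_cast hO
    have h2 : 1 / 18 ≤ z * q1 := by
      have h1 : (1 / 3 : ℝ) * t ≤ t * (1 / 18 + (z * q1 + q2)) := by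
        have : (Fintype.card O : ℝ) ≤ t * (1 / 18) := by linarith
        linarith
      have h2 : (1 / 3 : ℝ) * t ≤ (1 / 18 + (z * q1 + q2)) * t := by linarith
      have h3 := le_of_mul_le_mul_right h2 htR
      linarith
    set y : ℝ := Real.log k ^ 2 / k with hy
    have hy0 : 0 ≤ y := by positivity
    have h3 : 1 / 18 ≤ z * (2 * Real.exp (-(n * Real.log 2)) * Real.exp (5 * y * n)) :=
      h2.trans (mul_le_mul_of_nonneg_left hq1' (by linarith))
    have hk6 : (10 ^ 6 : ℝ) ≤ k := by exact_mod_cast hge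
    have hyr : 1 ≤ y * n := by
      rw [hy, div_mul_eq_mul_div, le_div_iff₀ hkpos, one_mul]
      have hL2 : 1 ≤ Real.log k ^ 2 := by nlinarith
      calc (k : ℝ) ≤ 1 * n := by linarith
        _ ≤ Real.log k ^ 2 * n := mul_le_mul_of_nonneg_right hL2 (by linarith)
    have h16 : (36 : ℝ) ≤ Real.exp (4 * y * n) := by
      have h5 : Real.exp 4 ≤ Real.exp (4 * y * n) := by
        rw [Real.exp_le_exp]
        nlinarith
      have h6 : Real.exp 4 = Real.exp 1 ^ 4 := by
        rw [← Real.exp_nat_mul]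
        norm_num
      have h7 := Real.exp_one_gt_d9
      have h8 : (27 / 10 : ℝ) ^ 4 ≤ Real.exp 1 ^ 4 :=
        pow_le_pow_left₀ (by norm_num) (by linarith) 4
      rw [← h6] at h8
      refine le_trans ?_ h5
      refine le_trans ?_ h8
      norm_num
    have h9 : Real.exp (n * Real.log 2) ≤ z * Real.exp (9 * y * n) := by
      have h10 : Real.exp (n * Real.log 2) * (1 / 18) ≤
          Real.exp (n * Real.log 2) *
            (z * (2 * Real.exp (-(n * Real.log 2)) * Real.exp (5 * y * n))) :=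
        mul_le_mul_of_nonneg_left h3 (Real.exp_pos _).le
      have h11 : Real.exp (n * Real.log 2) *
            (z * (2 * Real.exp (-(n * Real.log 2)) * Real.exp (5 * y * n)))
          = 2 * (z * Real.exp (5 * y * n)) := by
        have h12 : Real.exp (n * Real.log 2) * Real.exp (-(n * Real.log 2)) = 1 := by
          rw [← Real.exp_add, add_neg_cancel, Real.exp_zero]
        calc Real.exp (n * Real.log 2) *
            (z * (2 * Real.exp (-(n * Real.log 2)) * Real.exp (5 * y * n)))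
            = (Real.exp (n * Real.log 2) * Real.exp (-(n * Real.log 2))) *
              (2 * (z * Real.exp (5 * y * n))) := by ring
          _ = _ := by rw [h12, one_mul]
      rw [h11] at h10
      have h13 : Real.exp (9 * y * n) = Real.exp (4 * y * n) * Real.exp (5 * y * n) := by
        rw [← Real.exp_add]
        congr 1
        ring
      rw [h13]
      have h14 : 0 ≤ z * Real.exp (5 * y * n) :=
        mul_nonneg (by linarith) (Real.exp_pos _).le
      nlinarith
    have h15 : (2 : ℝ) ^ ((1 - 10 ^ 6 * y) * (n : ℝ)) ≤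
        Real.exp (n * Real.log 2) * Real.exp (-(9 * y * n)) := by
      rw [Real.rpow_def_of_pos (by norm_num), ← Real.exp_add, Real.exp_le_exp]
      have hlog : (1 : ℝ) / 2 ≤ Real.log 2 := by
        have := Real.log_two_gt_d9
        linarith
      have h16 : 0 ≤ y * n := by linarith
      have h17 : 9 * (y * n) ≤ Real.log 2 * (10 ^ 6 * (y * n)) := by nlinarith
      have h18 : Real.log 2 * ((1 - 10 ^ 6 * y) * (n : ℝ))
          = n * Real.log 2 - Real.log 2 * (10 ^ 6 * (y * n)) := by ring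
      rw [h18]
      linarith
    refine h15.trans ?_
    calc Real.exp (n * Real.log 2) * Real.exp (-(9 * y * n))
        ≤ (z * Real.exp (9 * y * n)) * Real.exp (-(9 * y * n)) :=
          mul_le_mul_of_nonneg_right h9 (Real.exp_pos _).le
      _ = z := by
          rw [mul_assoc, ← Real.exp_add, add_neg_cancel, Real.exp_zero, mul_one]

/-- **Distillation, `k = 3`.** -/
theorem dist_three (n t : ℕ) (ht : 0 < t) (O : Type) [Fintype O]
    (hO : 18 * Fintype.card O ≤ t)
    (F : RRed (Fin t × Clause 3 (Fin n)) O (Fin t × Fin n) (nB 3)) (L : Set (O → Bool))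
    (g : (Fin t → Bool) → Bool) (hg : Dep g) (hF : F.Distills L g) :
    (10 : ℝ) ^ (n / 2400) ≤ 4 * (Fintype.card O * F.size + 1) := by
  classical
  have hz1 : 1 ≤ (Fintype.card O : ℝ) * F.size + 1 := by
    have h1 : 0 ≤ (Fintype.card O : ℝ) * F.size := mul_nonneg (Nat.cast_nonneg _) F.size_nonneg
    linarith
  rcases Nat.lt_or_ge n 2400 with hlt | hge
  · rw [Nat.div_eq_of_lt hlt, pow_zero]
    linarith
  · obtain ⟨τ, hτ⟩ : ∃ τ, τ = n / 2400 := ⟨_, rfl⟩
    have hτ1 : 1 ≤ τ := by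
      rw [hτ]
      exact (Nat.one_le_div_iff (by norm_num)).2 hge
    have hτn : 2400 * τ ≤ n := by
      rw [hτ]
      exact Nat.mul_div_le n 2400
    have hnR : (2400 : ℝ) ≤ n := by exact_mod_cast hge
    have hτR : 2400 * (τ : ℝ) ≤ n := by exact_mod_cast hτn
    have hcond : 9933 / 1000 * (((n + 1 : ℕ) : ℝ) / Fintype.card (Fin n)) ^ 2 *
        ((2 * τ : ℕ) / Fintype.card (Fin n)) ≤ 1 / 100 := by
      rw [Fintype.card_fin]
      push_cast
      have h1 : ((n : ℝ) + 1) / n ≤ 2401 / 2400 := by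
        rw [div_le_div_iff₀ (by linarith) (by norm_num)]
        linarith
      have h2 : (2 * (τ : ℝ)) / n ≤ 1 / 1200 := by
        rw [div_le_div_iff₀ (by linarith) (by norm_num)]
        linarith
      have h3 : (((n : ℝ) + 1) / n) ^ 2 ≤ (2401 / 2400) ^ 2 :=
        pow_le_pow_left₀ (by positivity) h1 2
      calc 9933 / 1000 * (((n : ℝ) + 1) / n) ^ 2 * (2 * (τ : ℝ) / n) ≤
            9933 / 1000 * (2401 / 2400) ^ 2 * (1 / 1200) := by
            apply mul_le_mul _ h2 (by positivity) (by positivity)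
            exact mul_le_mul_of_nonneg_left h3 (by norm_num)
        _ ≤ 1 / 100 := by norm_num
    obtain ⟨hq1, hq2⟩ := three_q (V := Fin n) (by rw [Fintype.card_fin]; omega) (n + 1) τ hcond
    have h0 := dist_core (by norm_num) (by omega) F L g hg hF τ hτ1 _ _
      (le_trans (le_of_eq (Finset.sum_congr (Finset.filter_congr_decidable _ _ _)
        fun _ _ => rfl)) hq1)
      (le_trans (le_of_eq (Finset.sum_congr (Finset.filter_congr_decidable _ _ _)
        fun _ _ => rfl)) hq2)
    set z : ℝ := (Fintype.card O : ℝ) * F.size + 1 with hz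
    have htR : (0 : ℝ) < t := by exact_mod_cast ht
    have hOR : 18 * (Fintype.card O : ℝ) ≤ t := by exact_mod_cast hO
    have h2 : 1 / 18 ≤ z * (2 * ((1 / 10) ^ (τ + 1) / (1 - 1 / 10))) := by
      have h1 : (1 / 3 : ℝ) * t ≤ (1 / 18 + (z * (2 * ((1 / 10) ^ (τ + 1) / (1 - 1 / 10))) +
          2 * ((1 / 10) ^ (0 + 1) / (1 - 1 / 10)))) * t := by
        have : (Fintype.card O : ℝ) ≤ t * (1 / 18) := by linarith
        linarith
      have h3 := le_of_mul_le_mul_right h1 htR
      norm_num at h3 ⊢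
      linarith
    rw [← hτ]
    have h3 : ((10 : ℝ) ^ τ) * (1 / 10) ^ τ = 1 := by
      rw [← mul_pow]
      norm_num
    have h4 : (10 : ℝ) ^ τ * (1 / 18) ≤
        (10 : ℝ) ^ τ * (z * (2 * ((1 / 10) ^ (τ + 1) / (1 - 1 / 10)))) :=
      mul_le_mul_of_nonneg_left h2 (by positivity)
    have h5 : (10 : ℝ) ^ τ * (z * (2 * ((1 / 10) ^ (τ + 1) / (1 - 1 / 10)))) =
        (2 / 9) * z * ((10 : ℝ) ^ τ * (1 / 10) ^ τ) := by
      rw [pow_succ]
      ring
    rw [h5, h3] at h4
    linarith

section upper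

variable {t k n : ℕ} {D : Type}

/-- the program on one of the formulas -/
def LP.at (P : LP (Clause k (Fin n)) D) (i : Fin t) : LP (Fin t × Clause k (Fin n)) D where
  L := P.L.comap (AffineMap.prodMap
    ((LinearMap.funLeft ℝ ℝ (fun c : Clause k (Fin n) => ((i, c) : Fin t × Clause k (Fin n)))).toAffineMap)
    (AffineMap.id ℝ (D → ℝ)))

theorem LP.mem_at (P : LP (Clause k (Fin n)) D) (i : Fin t)
    (v : Fin t × Clause k (Fin n) → ℝ) (y : D → ℝ) :
    (v, y) ∈ (P.at i).L ↔ (fun c => v (i, c), y) ∈ P.L := Iff.rfl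

theorem LP.at_acc (P : LP (Clause k (Fin n)) D) (i : Fin t)
    (v : Fin t × Clause k (Fin n) → ℝ) : (P.at i).Acc v ↔ P.Acc (fun c => v (i, c)) := Iff.rfl

theorem LP.at_aut (P : LP (Clause k (Fin n)) D) (i : Fin t) (y : Fin t × Fin n → ZMod 2)
    {π : Equiv.Perm D} (h : P.IsAut (neg fun v => y (i, v)) π) : (P.at i).IsAut (nB k y) π := by
  intro v w
  rw [LP.mem_at, LP.mem_at, h]
  exact Iff.rfl

/-- **One output bit for each formula.** -/
theorem dist_upper (t k n : ℕ) :
    ∃ F : Red (Fin t × Clause k (Fin n)) (Fin t) (Fin t × Fin n) (nB k), F.size = t * 2 ^ n ∧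
      ∀ Φ : Fin t → Set (Clause k (Fin n)), F.out (indB Φ) = ans Φ := by
  classical
  have hb := brute_lp k (Fin n)
  rw [Fintype.card_fin] at hb
  obtain ⟨P, hP1, hP2⟩ := hb
  refine ⟨⟨1, fun i => LAlg.test (2 ^ n) (P.at i) (LAlg.out true) (LAlg.out false), ?_⟩, ?_, ?_⟩
  · intro i y _
    obtain ⟨π, hπ⟩ := hP1 fun v => y (i, v)
    exact ⟨⟨π, P.at_aut i y hπ⟩, trivial, trivial⟩
  · show ∑ i : Fin t, (2 ^ n + 0 + 0) = t * 2 ^ n
    rw [Finset.sum_const, Finset.card_univ, Fintype.card_fin, smul_eq_mul, add_zero, add_zero]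
  · intro Φ
    funext i
    show (if (P.at i).Acc (indB Φ) then (LAlg.out false).run (indB Φ)
      else (LAlg.out true).run (indB Φ)) = decide (Sat (Φ i))
    have h1 : (P.at i).Acc (indB Φ) ↔ ¬ Sat (Φ i) := by
      rw [LP.at_acc]
      exact hP2 (Φ i)
    by_cases h : Sat (Φ i)
    · rw [if_neg (fun h2 => h1.1 h2 h), decide_eq_true h]
      rfl
    · rw [if_pos (h1.2 h), decide_eq_false h]
      rfl

end upper

end Pool.Agent.H550R2.Lin
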