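import Pool.Agent.H550R2.LP.Asym
import Pool.Agent.H550R2.Neg.Out

set_option autoImplicit false
set_option linter.unusedSectionVars false

/-! Orthogonal vectors and linear programs that are symmetric under permutations of the vectors and
of the coordinates. -/

namespace Pool.Agent.H550R2.Lin

open Finset Pool.Agent.H550R2.Lift
open Pool.Agent.H550R2.Neg (rowT idE act)
open Pool.Agent.H30R2.NS (A A_apply pp Clause Phi Ext neg neg_apply neg_add neg_phi Sat Satisfies
  sat_phi_zero exists_unsat)

/-- The input variables of an instance of orthogonal vectors with index set `R` of the vectors of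
each side and index set `C` of the coordinates. -/
abbrev OVI (R C : Type) : Type := (R × C) ⊕ (R × C)

/-- The input vector of the instance with the vectors `u i` and `w i`. -/
def ovVec {R C : Type} (u w : R → C → Bool) : OVI R C → ℝ
  | Sum.inl z => if u z.1 z.2 = true then 1 else 0
  | Sum.inr z => if w z.1 z.2 = true then 1 else 0

/-- Some vector `u i` is orthogonal to some vector `w j`. -/
def Orth {R C : Type} (u w : R → C → Bool) : Prop :=
  ∃ i j, ∀ c, ¬ (u i c = true ∧ w j c = true)

/-- The permutations `σ`, `τ` of the vectors of the two sides and `κ` of the coordinates, acting on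
the input variables. -/
def gO {R C : Type} (σ τ : Equiv.Perm R) (κ : Equiv.Perm C) : Equiv.Perm (OVI R C) :=
  (σ.prodCongr κ).sumCongr (τ.prodCongr κ)

/-- The random algorithm decides orthogonal vectors for two families of distinct vectors, with
error probability at most `1 / 3`. -/
def RLAlg.DecidesOV {R C : Type} (A : RLAlg (OVI R C)) : Prop :=
  ∀ u w : R → C → Bool, Function.Injective u → Function.Injective w →
    (Orth u w → 2 / 3 ≤ A.acc (ovVec u w)) ∧ (¬ Orth u w → A.acc (ovVec u w) ≤ 1 / 3)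

section inst

variable {k h e : ℕ}

/-- the variables -/
abbrev VV (h : ℕ) : Type := Fin (h + h)

/-- the rows of the instance -/
abbrev Row (h e : ℕ) : Type := (Fin h → ZMod 2) ⊕ Fin e

/-- the columns of the instance -/
abbrev Col (k h : ℕ) : Type := Clause k (VV h) ⊕ ((VV h × ZMod 2) ⊕ (Fin h ⊕ Bool))

/-- left entries -/
def EA (cd : Fin e → Fin h → ZMod 2) (Φ : Set (Clause k (VV h))) : Row h e → Col k h → Prop
  | Sum.inl α, Sum.inl c => c ∈ Φ ∧ ∀ l i, (c l).1 = Fin.castAdd h i → α i ≠ (c l).2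
  | Sum.inl α, Sum.inr (Sum.inl z) => ∃ i, z.1 = Fin.castAdd h i ∧ α i = z.2
  | Sum.inl _, Sum.inr (Sum.inr (Sum.inl _)) => False
  | Sum.inl _, Sum.inr (Sum.inr (Sum.inr s)) => s = true
  | Sum.inr _, Sum.inl _ => False
  | Sum.inr _, Sum.inr (Sum.inl _) => False
  | Sum.inr j, Sum.inr (Sum.inr (Sum.inl i)) => cd j i = 1
  | Sum.inr _, Sum.inr (Sum.inr (Sum.inr _)) => True

/-- right entries -/
def EB (cd : Fin e → Fin h → ZMod 2) : Row h e → Col k h → Prop
  | Sum.inl α, Sum.inl c => ∀ l i, (c l).1 = Fin.natAdd h i → α i ≠ (c l).2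
  | Sum.inl α, Sum.inr (Sum.inl z) => ∃ i, z.1 = Fin.natAdd h i ∧ α i = z.2
  | Sum.inl _, Sum.inr (Sum.inr (Sum.inl _)) => False
  | Sum.inl _, Sum.inr (Sum.inr (Sum.inr s)) => s = false
  | Sum.inr _, Sum.inl _ => False
  | Sum.inr _, Sum.inr (Sum.inl _) => False
  | Sum.inr j, Sum.inr (Sum.inr (Sum.inl i)) => cd j i = 1
  | Sum.inr _, Sum.inr (Sum.inr (Sum.inr _)) => True

/-- the left half of a pattern -/
def yl (y : VV h → ZMod 2) : Fin h → ZMod 2 := fun i => y (Fin.castAdd h i)

/-- the right half of a pattern -/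
def yr (y : VV h → ZMod 2) : Fin h → ZMod 2 := fun i => y (Fin.natAdd h i)

/-- translation of the rows -/
def rP (e : ℕ) (z : Fin h → ZMod 2) : Equiv.Perm (Row h e) :=
  (Equiv.addRight z).sumCongr (Equiv.refl _)

/-- the permutation of the columns -/
def sP (y : VV h → ZMod 2) : Equiv.Perm (VV h × ZMod 2) where
  toFun z := (z.1, z.2 + y z.1)
  invFun z := (z.1, z.2 + y z.1)
  left_inv z := by
    apply Prod.ext
    · rfl
    · show z.2 + y z.1 + y z.1 = z.2
      rw [add_assoc, CharTwo.add_self_eq_zero, add_zero]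
  right_inv z := by
    apply Prod.ext
    · rfl
    · show z.2 + y z.1 + y z.1 = z.2
      rw [add_assoc, CharTwo.add_self_eq_zero, add_zero]

/-- the permutation of the columns -/
def cP (k : ℕ) (y : VV h → ZMod 2) : Equiv.Perm (Col k h) :=
  (neg y).sumCongr ((sP y).sumCongr (Equiv.refl _))

theorem rP_add (z z' : Fin h → ZMod 2) : rP e (z + z') = rP e z * rP e z' := by
  apply Equiv.ext
  rintro (α | j)
  · show Sum.inl (α + (z + z')) = Sum.inl (α + z' + z)
    rw [add_assoc, add_comm z z']
  · rfl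

theorem cP_add (y y' : VV h → ZMod 2) : cP k (y + y') = cP k y * cP k y' := by
  apply Equiv.ext
  rintro (c | (z | z))
  · show Sum.inl (neg (y + y') c) = Sum.inl (neg y (neg y' c))
    rw [neg_add]
    rfl
  · show Sum.inr (Sum.inl (z.1, z.2 + (y + y') z.1)) =
      Sum.inr (Sum.inl (z.1, z.2 + y' z.1 + y z.1))
    rw [Pi.add_apply, add_assoc, add_comm (y z.1)]
  · rfl

theorem EA_shift (cd : Fin e → Fin h → ZMod 2) {m : ℕ} (T : Fin m × Fin k → VV h)
    (b : Fin m → ZMod 2) (y : VV h → ZMod 2) (ρ : Row h e) (c : Col k h) :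
    EA cd (Phi id T (b + A T y)) (rP e (yl y) ρ) (cP k y c) ↔ EA cd (Phi id T b) ρ c := by
  rcases ρ with α | j
  · rcases c with c | (z | (i | s))
    · show (neg y c ∈ Phi id T (b + A T y) ∧ ∀ l i, ((neg y c) l).1 = Fin.castAdd h i →
        α i + yl y i ≠ ((neg y c) l).2) ↔ _
      refine and_congr (neg_phi (idE (VV h)) T b y c) ?_
      constructor
      · intro h1 l i hl h2
        refine h1 l i hl ?_
        rw [neg_apply]
        show α i + y (Fin.castAdd h i) = (c l).2 + y (c l).1
        rw [h2, hl]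
      · intro h1 l i hl h2
        have hl' : (c l).1 = Fin.castAdd h i := hl
        refine h1 l i hl' ?_
        have h3 : α i + y (Fin.castAdd h i) = (c l).2 + y (c l).1 := h2
        rw [hl'] at h3
        exact add_right_cancel h3
    · show (∃ i, z.1 = Fin.castAdd h i ∧ α i + yl y i = z.2 + y z.1) ↔
        ∃ i, z.1 = Fin.castAdd h i ∧ α i = z.2
      apply exists_congr
      intro i
      apply and_congr_right
      intro hz
      rw [hz]
      exact add_left_inj _
    · exact Iff.rfl
    · exact Iff.rfl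
  · rcases c with c | (z | (i | s))
    · exact Iff.rfl
    · exact Iff.rfl
    · exact Iff.rfl
    · exact Iff.rfl

theorem EB_shift (cd : Fin e → Fin h → ZMod 2) (y : VV h → ZMod 2) (ρ : Row h e) (c : Col k h) :
    EB cd (rP e (yr y) ρ) (cP k y c) ↔ EB cd ρ c := by
  rcases ρ with α | j
  · rcases c with c | (z | (i | s))
    · show (∀ l i, ((neg y c) l).1 = Fin.natAdd h i → α i + yr y i ≠ ((neg y c) l).2) ↔
        ∀ l i, (c l).1 = Fin.natAdd h i → α i ≠ (c l).2
      constructor
      · intro h1 l i hl h2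
        refine h1 l i hl ?_
        rw [neg_apply]
        show α i + y (Fin.natAdd h i) = (c l).2 + y (c l).1
        rw [h2, hl]
      · intro h1 l i hl h2
        have hl' : (c l).1 = Fin.natAdd h i := hl
        refine h1 l i hl' ?_
        have h3 : α i + y (Fin.natAdd h i) = (c l).2 + y (c l).1 := h2
        rw [hl'] at h3
        exact add_right_cancel h3
    · show (∃ i, z.1 = Fin.natAdd h i ∧ α i + yr y i = z.2 + y z.1) ↔
        ∃ i, z.1 = Fin.natAdd h i ∧ α i = z.2
      apply exists_congr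
      intro i
      apply and_congr_right
      intro hz
      rw [hz]
      exact add_left_inj _
    · exact Iff.rfl
    · exact Iff.rfl
  · rcases c with c | (z | (i | s))
    · exact Iff.rfl
    · exact Iff.rfl
    · exact Iff.rfl
    · exact Iff.rfl

theorem EA_inj (cd : Fin e → Fin h → ZMod 2) (hcd : Function.Injective cd)
    (Φ : Set (Clause k (VV h))) (ρ ρ' : Row h e) (hr : ∀ c, EA cd Φ ρ c ↔ EA cd Φ ρ' c) :
    ρ = ρ' := by
  rcases ρ with α | j <;> rcases ρ' with α' | j'
  · congr 1
    funext i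
    obtain ⟨i', h1, h2⟩ := (hr (Sum.inr (Sum.inl (Fin.castAdd h i, α i)))).1 ⟨i, rfl, rfl⟩
    have h3 : i = i' := Fin.castAdd_injective h h h1
    rw [← h3] at h2
    exact h2.symm
  · have h1 : (false = true) := (hr (Sum.inr (Sum.inr (Sum.inr false)))).2 trivial
    exact absurd h1 (by decide)
  · have h1 : (false = true) := (hr (Sum.inr (Sum.inr (Sum.inr false)))).1 trivial
    exact absurd h1 (by decide)
  · congr 1
    apply hcd
    funext i
    have h1 : cd j i = 1 ↔ cd j' i = 1 := hr (Sum.inr (Sum.inr (Sum.inl i)))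
    rcases zmod2_cases (cd j i) with h2 | h2 <;> rcases zmod2_cases (cd j' i) with h3 | h3
    · rw [h2, h3]
    · rw [h1.2 h3, h3]
    · rw [h2, h1.1 h2]
    · rw [h2, h3]

theorem EB_inj (cd : Fin e → Fin h → ZMod 2) (hcd : Function.Injective cd)
    (ρ ρ' : Row h e) (hr : ∀ c : Col k h, EB cd ρ c ↔ EB cd ρ' c) : ρ = ρ' := by
  rcases ρ with α | j <;> rcases ρ' with α' | j'
  · congr 1
    funext i
    obtain ⟨i', h1, h2⟩ := (hr (Sum.inr (Sum.inl (Fin.natAdd h i, α i)))).1 ⟨i, rfl, rfl⟩
    have h3 : i = i' := Fin.natAdd_injective h h h1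
    rw [← h3] at h2
    exact h2.symm
  · have h1 : (true = false) := (hr (Sum.inr (Sum.inr (Sum.inr true)))).2 trivial
    exact absurd h1 (by decide)
  · have h1 : (true = false) := (hr (Sum.inr (Sum.inr (Sum.inr true)))).1 trivial
    exact absurd h1 (by decide)
  · congr 1
    apply hcd
    funext i
    have h1 : cd j i = 1 ↔ cd j' i = 1 := hr (Sum.inr (Sum.inr (Sum.inl i)))
    rcases zmod2_cases (cd j i) with h2 | h2 <;> rcases zmod2_cases (cd j' i) with h3 | h3
    · rw [h2, h3]
    · rw [h1.2 h3, h3]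
    · rw [h2, h1.1 h2]
    · rw [h2, h3]

/-- an assignment from its halves -/
def glue (α β : Fin h → ZMod 2) : VV h → ZMod 2 := Fin.append α β

theorem orth_iff (cd : Fin e → Fin h → ZMod 2) (Φ : Set (Clause k (VV h))) :
    (∃ ρ ρ' : Row h e, ∀ c, ¬ (EA cd Φ ρ c ∧ EB cd ρ' c)) ↔ Sat Φ := by
  constructor
  · rintro ⟨ρ, ρ', hc⟩
    rcases ρ with α | j
    · rcases ρ' with β | j'
      · refine ⟨glue α β, fun c hcΦ => ?_⟩
        by_contra hn
        refine hc (Sum.inl c) ⟨⟨hcΦ, ?_⟩, ?_⟩
        · intro l i hl h2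
          apply hn
          refine ⟨l, ?_⟩
          rw [hl]
          unfold glue
          rw [Fin.append_left]
          exact h2
        · intro l i hl h2
          apply hn
          refine ⟨l, ?_⟩
          rw [hl]
          unfold glue
          rw [Fin.append_right]
          exact h2
      · exact absurd ⟨rfl, trivial⟩ (hc (Sum.inr (Sum.inr (Sum.inr true))))
    · rcases ρ' with β | j'
      · exact absurd ⟨trivial, rfl⟩ (hc (Sum.inr (Sum.inr (Sum.inr false))))
      · exact absurd ⟨trivial, trivial⟩ (hc (Sum.inr (Sum.inr (Sum.inr false))))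
  · rintro ⟨x, hx⟩
    refine ⟨Sum.inl (fun i => x (Fin.castAdd h i)), Sum.inl (fun i => x (Fin.natAdd h i)), ?_⟩
    rintro (c | (z | (i | s))) ⟨h1, h2⟩
    · obtain ⟨l, hl⟩ := hx c h1.1
      rcases Fin.addCases (motive := fun v => (∃ i, v = Fin.castAdd h i) ∨ ∃ i, v = Fin.natAdd h i)
        (fun i => Or.inl ⟨i, rfl⟩) (fun i => Or.inr ⟨i, rfl⟩) (c l).1 with ⟨i, hi⟩ | ⟨i, hi⟩
      · refine h1.2 l i hi ?_
        show x (Fin.castAdd h i) = (c l).2
        rw [← hi]
        exact hl
      · refine h2 l i hi ?_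
        show x (Fin.natAdd h i) = (c l).2
        rw [← hi]
        exact hl
    · obtain ⟨i, h3, -⟩ := h1
      obtain ⟨i', h4, -⟩ := h2
      rw [h3] at h4
      have h5 := congrArg Fin.val h4
      rw [Fin.val_castAdd, Fin.val_natAdd] at h5
      have h6 := i.2
      omega
    · exact h1
    · have h3 : s = true := h1
      have h4 : s = false := h2
      rw [h3] at h4
      exact absurd h4 (by decide)

end inst

section main

variable {k h e n d : ℕ}

open Classical in
/-- the left vectors -/
noncomputable def uI (cd : Fin e → Fin h → ZMod 2) (eR : Fin n ≃ Row h e) (eC : Fin d ≃ Col k h)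
    (Φ : Set (Clause k (VV h))) : Fin n → Fin d → Bool :=
  fun i c => decide (EA cd Φ (eR i) (eC c))

open Classical in
/-- the right vectors -/
noncomputable def wI (cd : Fin e → Fin h → ZMod 2) (eR : Fin n ≃ Row h e) (eC : Fin d ≃ Col k h) :
    Fin n → Fin d → Bool :=
  fun i c => decide (EB cd (eR i) (eC c))

/-- the action on the input variables -/
def actO (e : ℕ) (eR : Fin n ≃ Row h e) (eC : Fin d ≃ Col k h) (y : VV h → ZMod 2) :
    Equiv.Perm (OVI (Fin n) (Fin d)) :=
  gO (eR.symm.permCongr (rP e (yl y))) (eR.symm.permCongr (rP e (yr y)))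
    (eC.symm.permCongr (cP k y))

theorem actO_add (eR : Fin n ≃ Row h e) (eC : Fin d ≃ Col k h) (y y' : VV h → ZMod 2) :
    actO e eR eC (y + y') = actO e eR eC y * actO e eR eC y' := by
  have h1 : yl (y + y') = yl y + yl y' := rfl
  have h2 : yr (y + y') = yr y + yr y' := rfl
  have hR : ∀ (z z' : Fin h → ZMod 2) (i : Fin n), eR.symm.permCongr (rP e (z + z')) i =
      eR.symm.permCongr (rP e z) (eR.symm.permCongr (rP e z') i) := by
    intro z z' i
    rw [rP_add]
    simp [Equiv.permCongr_apply]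
  have hC : ∀ (c : Fin d), eC.symm.permCongr (cP k (y + y')) c =
      eC.symm.permCongr (cP k y) (eC.symm.permCongr (cP k y') c) := by
    intro c
    rw [cP_add]
    simp [Equiv.permCongr_apply]
  apply Equiv.ext
  rintro (⟨i, c⟩ | ⟨i, c⟩)
  · show Sum.inl (eR.symm.permCongr (rP e (yl (y + y'))) i, eC.symm.permCongr (cP k (y + y')) c) =
      Sum.inl (_, _)
    rw [h1, hR, hC]
    rfl
  · show Sum.inr (eR.symm.permCongr (rP e (yr (y + y'))) i, eC.symm.permCongr (cP k (y + y')) c) =
      Sum.inr (_, _)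
    rw [h2, hR, hC]
    rfl

theorem ov_shift (cd : Fin e → Fin h → ZMod 2) (eR : Fin n ≃ Row h e) (eC : Fin d ≃ Col k h)
    {m : ℕ} (T : Fin m × Fin k → VV h) (b : Fin m → ZMod 2) (y : VV h → ZMod 2)
    (i : OVI (Fin n) (Fin d)) :
    ovVec (uI cd eR eC (Phi id T b)) (wI cd eR eC) ((actO e eR eC y).symm i) =
      ovVec (uI cd eR eC (Phi id T (b + A T y))) (wI cd eR eC) i := by
  classical
  have key : ∀ i, ovVec (uI cd eR eC (Phi id T (b + A T y))) (wI cd eR eC)
      (actO e eR eC y i) = ovVec (uI cd eR eC (Phi id T b)) (wI cd eR eC) i := by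
    rintro (⟨i, c⟩ | ⟨i, c⟩)
    · show (if uI cd eR eC (Phi id T (b + A T y)) (eR.symm.permCongr (rP e (yl y)) i)
        (eC.symm.permCongr (cP k y) c) = true then (1 : ℝ) else 0) =
        if uI cd eR eC (Phi id T b) i c = true then 1 else 0
      have h1 : (uI cd eR eC (Phi id T (b + A T y)) (eR.symm.permCongr (rP e (yl y)) i)
          (eC.symm.permCongr (cP k y) c) = true) ↔ uI cd eR eC (Phi id T b) i c = true := by
        unfold uI
        rw [decide_eq_true_iff, decide_eq_true_iff, Equiv.permCongr_apply, Equiv.permCongr_apply,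
          Equiv.symm_symm, Equiv.symm_symm, Equiv.apply_symm_apply, Equiv.apply_symm_apply]
        exact EA_shift cd T b y (eR i) (eC c)
      by_cases h2 : uI cd eR eC (Phi id T b) i c = true
      · rw [if_pos h2, if_pos (h1.2 h2)]
      · rw [if_neg h2, if_neg (fun h3 => h2 (h1.1 h3))]
    · show (if wI cd eR eC (eR.symm.permCongr (rP e (yr y)) i)
        (eC.symm.permCongr (cP k y) c) = true then (1 : ℝ) else 0) =
        if wI cd eR eC i c = true then 1 else 0
      have h1 : (wI cd eR eC (eR.symm.permCongr (rP e (yr y)) i)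
          (eC.symm.permCongr (cP k y) c) = true) ↔ wI cd eR eC i c = true := by
        unfold wI
        rw [decide_eq_true_iff, decide_eq_true_iff, Equiv.permCongr_apply, Equiv.permCongr_apply,
          Equiv.symm_symm, Equiv.symm_symm, Equiv.apply_symm_apply, Equiv.apply_symm_apply]
        exact EB_shift cd y (eR i) (eC c)
      by_cases h2 : wI cd eR eC i c = true
      · rw [if_pos h2, if_pos (h1.2 h2)]
      · rw [if_neg h2, if_neg (fun h3 => h2 (h1.1 h3))]
  have h1 := key ((actO e eR eC y).symm i)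
  rw [Equiv.apply_symm_apply] at h1
  exact h1.symm

theorem ov_val (cd : Fin e → Fin h → ZMod 2) (eR : Fin n ≃ Row h e) (eC : Fin d ≃ Col k h)
    {m t : ℕ} (ht : 1 ≤ t) {T : Fin m × Fin k → VV h} (hB : Base T t)
    (i : OVI (Fin n) (Fin d)) : ∃ (α β : ℝ) (S : Finset (Fin m)), S.card ≤ 1 ∧
      ∀ b, ovVec (uI cd eR eC (Phi id T b)) (wI cd eR eC) i = α + β * sg (∑ j ∈ S, b j) := by
  classical
  have hconst : ∀ z : ℝ, (∀ b, ovVec (uI cd eR eC (Phi id T b)) (wI cd eR eC) i = z) →
      ∃ (α β : ℝ) (S : Finset (Fin m)), S.card ≤ 1 ∧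
      ∀ b, ovVec (uI cd eR eC (Phi id T b)) (wI cd eR eC) i = α + β * sg (∑ j ∈ S, b j) := by
    intro z hz
    refine ⟨z, 0, ∅, by rw [Finset.card_empty]; exact Nat.zero_le _, fun b => ?_⟩
    rw [hz]
    ring
  rcases i with ⟨i, c⟩ | ⟨i, c⟩
  · by_cases hcl : ∃ (α : Fin h → ZMod 2) (c' : Clause k (VV h)), eR i = Sum.inl α ∧
        eC c = Sum.inl c' ∧ ∀ l i, (c' l).1 = Fin.castAdd h i → α i ≠ (c' l).2
    · obtain ⟨α, c', h1, h2, h3⟩ := hcl
      obtain ⟨a, β, S, hS, hv⟩ := phi_val Function.injective_id ht hB c'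
      refine ⟨a, β, S, hS, fun b => ?_⟩
      rw [← hv b]
      show (if uI cd eR eC (Phi id T b) i c = true then (1 : ℝ) else 0) = ind (Phi id T b) c'
      have h4 : uI cd eR eC (Phi id T b) i c = true ↔ c' ∈ Phi id T b := by
        unfold uI
        rw [decide_eq_true_iff, h1, h2]
        exact ⟨fun h5 => h5.1, fun h5 => ⟨h5, h3⟩⟩
      unfold ind
      by_cases h5 : c' ∈ Phi id T b
      · rw [if_pos (h4.2 h5), Set.indicator_of_mem h5]
        rfl
      · rw [if_neg (fun h6 => h5 (h4.1 h6)), Set.indicator_of_notMem h5]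
    · apply hconst (if uI cd eR eC (Phi id T 0) i c = true then (1 : ℝ) else 0)
      intro b
      show (if uI cd eR eC (Phi id T b) i c = true then (1 : ℝ) else 0) = _
      have h1 : uI cd eR eC (Phi id T b) i c = true ↔ uI cd eR eC (Phi id T 0) i c = true := by
        unfold uI
        rw [decide_eq_true_iff, decide_eq_true_iff]
        rcases h2 : eR i with α | j
        · rcases h3 : eC c with c' | (z | (i' | s))
          · constructor
            · intro h4
              exact absurd ⟨α, c', h2, h3, h4.2⟩ hcl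
            · intro h4
              exact absurd ⟨α, c', h2, h3, h4.2⟩ hcl
          · exact Iff.rfl
          · exact Iff.rfl
          · exact Iff.rfl
        · rcases h3 : eC c with c' | (z | (i' | s))
          · exact Iff.rfl
          · exact Iff.rfl
          · exact Iff.rfl
          · exact Iff.rfl
      by_cases h2 : uI cd eR eC (Phi id T 0) i c = true
      · rw [if_pos h2, if_pos (h1.2 h2)]
      · rw [if_neg h2, if_neg (fun h3 => h2 (h1.1 h3))]
  · exact hconst (if wI cd eR eC i c = true then (1 : ℝ) else 0) fun b => rfl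

theorem uI_inj (cd : Fin e → Fin h → ZMod 2) (hcd : Function.Injective cd)
    (eR : Fin n ≃ Row h e) (eC : Fin d ≃ Col k h) (Φ : Set (Clause k (VV h))) :
    Function.Injective (uI cd eR eC Φ) := by
  intro i i' hi
  apply eR.injective
  apply EA_inj cd hcd Φ
  intro c
  have h1 := congrFun hi (eC.symm c)
  unfold uI at h1
  rw [Equiv.apply_symm_apply, decide_eq_decide] at h1
  exact h1

theorem wI_inj (cd : Fin e → Fin h → ZMod 2) (hcd : Function.Injective cd)
    (eR : Fin n ≃ Row h e) (eC : Fin d ≃ Col k h) :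
    Function.Injective (wI cd eR eC : Fin n → Fin d → Bool) := by
  intro i i' hi
  apply eR.injective
  apply EB_inj (k := k) cd hcd
  intro c
  have h1 := congrFun hi (eC.symm c)
  unfold wI at h1
  rw [Equiv.apply_symm_apply, decide_eq_decide] at h1
  exact h1

theorem orthI (cd : Fin e → Fin h → ZMod 2) (eR : Fin n ≃ Row h e) (eC : Fin d ≃ Col k h)
    (Φ : Set (Clause k (VV h))) : Orth (uI cd eR eC Φ) (wI cd eR eC) ↔ Sat Φ := by
  classical
  rw [← orth_iff cd Φ]
  constructor
  · rintro ⟨i, j, hc⟩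
    refine ⟨eR i, eR j, fun c hcc => hc (eC.symm c) ?_⟩
    unfold uI wI
    rw [Equiv.apply_symm_apply, decide_eq_true_iff, decide_eq_true_iff]
    exact hcc
  · rintro ⟨ρ, ρ', hc⟩
    refine ⟨eR.symm ρ, eR.symm ρ', fun c hcc => hc (eC c) ?_⟩
    unfold uI wI at hcc
    rw [Equiv.apply_symm_apply, Equiv.apply_symm_apply, decide_eq_true_iff,
      decide_eq_true_iff] at hcc
    exact hcc

/-- **The lower bound for orthogonal vectors.** -/
theorem ov_lower (hk : 3 ≤ k) (hr : k ≤ h + h) (hn : n = 2 ^ h + e) (he : e < 2 ^ h)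
    (hd : d = (4 * h) ^ k + 5 * h + 2) (R : RLAlg (OVI (Fin n) (Fin d)))
    (hR : ∀ σ τ κ, R.Sym (gO σ τ κ)) (hdec : R.DecidesOV) :
    (2 : ℝ) ^ ((1 - 10 ^ 6 * (Real.log k ^ 2 / k)) * ((h + h : ℕ) : ℝ)) ≤ R.size + 1 := by
  classical
  have hcardR : Fintype.card (Row h e) = n := by
    rw [Fintype.card_sum, Fintype.card_fun, ZMod.card, Fintype.card_fin, Fintype.card_fin, hn]
  have hcardC : Fintype.card (Col k h) = d := by
    rw [Fintype.card_sum, Fintype.card_sum, Fintype.card_sum, Fintype.card_prod,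
      Fintype.card_fun, Fintype.card_prod, ZMod.card, Fintype.card_fin, Fintype.card_fin,
      Fintype.card_fin, Fintype.card_bool, hd]
    have h1 : (h + h) * 2 = 4 * h := by ring
    rw [h1]
    ring
  let eR : Fin n ≃ Row h e := (Fintype.equivFinOfCardEq hcardR).symm
  let eC : Fin d ≃ Col k h := (Fintype.equivFinOfCardEq hcardC).symm
  have hce : Fintype.card (Fin e) ≤ Fintype.card (Fin h → ZMod 2) := by
    rw [Fintype.card_fin, Fintype.card_fun, ZMod.card, Fintype.card_fin]
    exact he.le
  obtain ⟨cd⟩ := Function.Embedding.nonempty_of_card_le hce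
  refine size_bound hk hr R.size R.size_nonneg fun τ q1 q2 hτ hq1 hq2 => ?_
  refine rand_boundL (V := VV h) (m := h + h + 1) (by rw [Fintype.card_fin]; omega) R
    (actO e eR eC) (actO_add eR eC) (fun y => hR _ _ _) τ hτ
    (fun T b => ovVec (uI cd eR eC (Phi id T b)) (wI cd eR eC))
    (fun T b y c => ov_shift cd eR eC T b y c) (fun T hB c => ov_val cd eR eC hτ hB c)
    ?_ ?_ q1 q2 hq1 hq2
  · intro T
    refine (hdec _ _ (uI_inj cd cd.injective eR eC _) (wI_inj cd cd.injective eR eC)).1 ?_
    rw [orthI]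
    exact sat_phi_zero T
  · intro T
    obtain ⟨b, hb⟩ := exists_unsat (ι := id) (V := VV h)
      (by rw [Fintype.card_fin]; exact Nat.lt_succ_self _) T
    refine ⟨b, (hdec _ _ (uI_inj cd cd.injective eR eC _) (wI_inj cd cd.injective eR eC)).2 ?_⟩
    rw [orthI]
    exact hb

end main

end Pool.Agent.H550R2.Lin
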