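import Pool.Agent.H550R2.LP.OV

set_option autoImplicit false
set_option linter.unusedSectionVars false

/-! The exact exponent for orthogonal vectors. -/

namespace Pool.Agent.H550R2.Lin

open Finset

section upper

variable {R C : Type} [Fintype R] [Fintype C]

/-- All pairs of vectors: `y` is a common part of the two vectors, and its size is at least one. -/
def pairLP (R C : Type) [Fintype C] : LP (OVI R C) ((R × R) × Option (C × Fin 3)) where
  L :=
    { carrier := {z | ∀ i j, (∀ c, z.2 ((i, j), some (c, 1)) =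
          z.1 (Sum.inl (i, c)) - z.2 ((i, j), some (c, 0)) ∧
        z.2 ((i, j), some (c, 2)) = z.1 (Sum.inr (j, c)) - z.2 ((i, j), some (c, 0))) ∧
        z.2 ((i, j), none) = ∑ c, z.2 ((i, j), some (c, 0)) - 1}
      smul_vsub_vadd_mem' := by
        rintro a ⟨v1, y1⟩ ⟨v2, y2⟩ ⟨v3, y3⟩ h1 h2 h3 i j
        obtain ⟨h1, h1'⟩ := h1 i j
        obtain ⟨h2, h2'⟩ := h2 i j
        obtain ⟨h3, h3'⟩ := h3 i j
        refine ⟨fun c => ⟨?_, ?_⟩, ?_⟩
        · have e1 : y1 ((i, j), some (c, 1)) = v1 (Sum.inl (i, c)) - y1 ((i, j), some (c, 0)) :=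
            (h1 c).1
          have e2 : y2 ((i, j), some (c, 1)) = v2 (Sum.inl (i, c)) - y2 ((i, j), some (c, 0)) :=
            (h2 c).1
          have e3 : y3 ((i, j), some (c, 1)) = v3 (Sum.inl (i, c)) - y3 ((i, j), some (c, 0)) :=
            (h3 c).1
          show a * (y1 ((i, j), some (c, 1)) - y2 ((i, j), some (c, 1))) +
            y3 ((i, j), some (c, 1)) = a * (v1 (Sum.inl (i, c)) - v2 (Sum.inl (i, c))) +
            v3 (Sum.inl (i, c)) - (a * (y1 ((i, j), some (c, 0)) - y2 ((i, j), some (c, 0))) +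
            y3 ((i, j), some (c, 0)))
          rw [e1, e2, e3]
          ring
        · have e1 : y1 ((i, j), some (c, 2)) = v1 (Sum.inr (j, c)) - y1 ((i, j), some (c, 0)) :=
            (h1 c).2
          have e2 : y2 ((i, j), some (c, 2)) = v2 (Sum.inr (j, c)) - y2 ((i, j), some (c, 0)) :=
            (h2 c).2
          have e3 : y3 ((i, j), some (c, 2)) = v3 (Sum.inr (j, c)) - y3 ((i, j), some (c, 0)) :=
            (h3 c).2
          show a * (y1 ((i, j), some (c, 2)) - y2 ((i, j), some (c, 2))) +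
            y3 ((i, j), some (c, 2)) = a * (v1 (Sum.inr (j, c)) - v2 (Sum.inr (j, c))) +
            v3 (Sum.inr (j, c)) - (a * (y1 ((i, j), some (c, 0)) - y2 ((i, j), some (c, 0))) +
            y3 ((i, j), some (c, 0)))
          rw [e1, e2, e3]
          ring
        · have e1 : y1 ((i, j), none) = ∑ c, y1 ((i, j), some (c, 0)) - 1 := h1'
          have e2 : y2 ((i, j), none) = ∑ c, y2 ((i, j), some (c, 0)) - 1 := h2'
          have e3 : y3 ((i, j), none) = ∑ c, y3 ((i, j), some (c, 0)) - 1 := h3'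
          show a * (y1 ((i, j), none) - y2 ((i, j), none)) + y3 ((i, j), none) =
            ∑ c, (a * (y1 ((i, j), some (c, 0)) - y2 ((i, j), some (c, 0))) +
            y3 ((i, j), some (c, 0))) - 1
          rw [Finset.sum_add_distrib, ← Finset.mul_sum, Finset.sum_sub_distrib, e1, e2, e3]
          ring }

theorem pairLP_mem (v : OVI R C → ℝ) (y : (R × R) × Option (C × Fin 3) → ℝ) :
    (v, y) ∈ (pairLP R C).L ↔ ∀ i j, (∀ c, y ((i, j), some (c, 1)) =
          v (Sum.inl (i, c)) - y ((i, j), some (c, 0)) ∧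
        y ((i, j), some (c, 2)) = v (Sum.inr (j, c)) - y ((i, j), some (c, 0))) ∧
        y ((i, j), none) = ∑ c, y ((i, j), some (c, 0)) - 1 := Iff.rfl

theorem pairLP_acc (u w : R → C → Bool) : (pairLP R C).Acc (ovVec u w) ↔ ¬ Orth u w := by
  classical
  constructor
  · rintro ⟨y, h1, h2⟩ ⟨i, j, hc⟩
    rw [pairLP_mem] at h2
    obtain ⟨h3, h4⟩ := h2 i j
    have h5 : ∀ c, y ((i, j), some (c, 0)) = 0 := by
      intro c
      obtain ⟨h6, h7⟩ := h3 c
      have h8 := h1 ((i, j), some (c, 0))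
      have h9 := h1 ((i, j), some (c, 1))
      have h10 := h1 ((i, j), some (c, 2))
      by_cases hu : u i c = true
      · have hw : ¬ w j c = true := fun hw => hc c ⟨hu, hw⟩
        have h11 : ovVec u w (Sum.inr (j, c)) = 0 := if_neg hw
        rw [h11] at h7
        linarith
      · have h11 : ovVec u w (Sum.inl (i, c)) = 0 := if_neg hu
        rw [h11] at h6
        linarith
    rw [Finset.sum_eq_zero (fun c _ => h5 c)] at h4
    have h6 := h1 ((i, j), none)
    linarith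
  · intro ho
    refine ⟨fun z => match z with
      | ((i, j), some (c, 0)) => if u i c = true ∧ w j c = true then 1 else 0
      | ((i, j), some (c, 1)) => (if u i c = true then 1 else 0) -
          if u i c = true ∧ w j c = true then 1 else 0
      | ((i, j), some (c, 2)) => (if w j c = true then 1 else 0) -
          if u i c = true ∧ w j c = true then 1 else 0
      | ((i, j), none) => ∑ c, (if u i c = true ∧ w j c = true then 1 else 0) - 1, ?_, ?_⟩
    · rintro ⟨⟨i, j⟩, (_ | ⟨c, s⟩)⟩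
      · show (0 : ℝ) ≤ ∑ c, (if u i c = true ∧ w j c = true then 1 else 0) - 1
        have h1 : ∃ c, u i c = true ∧ w j c = true := by
          by_contra hn
          exact ho ⟨i, j, fun c hc => hn ⟨c, hc⟩⟩
        obtain ⟨c, hc⟩ := h1
        have h2 : (1 : ℝ) ≤ ∑ c, (if u i c = true ∧ w j c = true then 1 else 0) := by
          have h3 : (if u i c = true ∧ w j c = true then (1 : ℝ) else 0) = 1 := if_pos hc
          refine le_trans (le_of_eq h3.symm) ?_
          exact Finset.single_le_sum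
            (f := fun c => if u i c = true ∧ w j c = true then (1 : ℝ) else 0)
            (fun c _ => by split_ifs <;> norm_num) (Finset.mem_univ c)
        linarith
      · fin_cases s
        · show (0 : ℝ) ≤ if u i c = true ∧ w j c = true then 1 else 0
          split_ifs <;> norm_num
        · show (0 : ℝ) ≤ (if u i c = true then 1 else 0) -
            if u i c = true ∧ w j c = true then 1 else 0
          by_cases h1 : u i c = true
          · rw [if_pos h1]
            split_ifs <;> norm_num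
          · rw [if_neg h1, if_neg (fun h => h1 h.1)]
            norm_num
        · show (0 : ℝ) ≤ (if w j c = true then 1 else 0) -
            if u i c = true ∧ w j c = true then 1 else 0
          by_cases h1 : w j c = true
          · rw [if_pos h1]
            split_ifs <;> norm_num
          · rw [if_neg h1, if_neg (fun h => h1 h.2)]
            norm_num
    · rw [pairLP_mem]
      intro i j
      exact ⟨fun c => ⟨rfl, rfl⟩, rfl⟩

theorem pairLP_sym (σ τ : Equiv.Perm R) (κ : Equiv.Perm C) :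
    (pairLP R C).IsAut (gO σ τ κ)
      ((σ.prodCongr τ).prodCongr (Equiv.optionCongr (κ.prodCongr (Equiv.refl (Fin 3))))) := by
  intro v y
  rw [pairLP_mem, pairLP_mem]
  constructor
  · intro h i j
    obtain ⟨h1, h2⟩ := h (σ.symm i) (τ.symm j)
    refine ⟨fun c => h1 (κ.symm c), ?_⟩
    show y ((σ.symm i, τ.symm j), none) = ∑ c, y ((σ.symm i, τ.symm j), some (κ.symm c, 0)) - 1
    rw [h2]
    congr 1
    exact (Equiv.sum_comp κ.symm (fun c => y ((σ.symm i, τ.symm j), some (c, 0)))).symm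
  · intro h i j
    obtain ⟨h1, h2⟩ := h (σ i) (τ j)
    have e1 : σ.symm (σ i) = i := σ.symm_apply_apply i
    have e2 : τ.symm (τ j) = j := τ.symm_apply_apply j
    constructor
    · intro c
      obtain ⟨h3, h4⟩ := h1 (κ c)
      have h3' : y ((σ.symm (σ i), τ.symm (τ j)), some (κ.symm (κ c), 1)) =
          v (Sum.inl (σ.symm (σ i), κ.symm (κ c))) -
          y ((σ.symm (σ i), τ.symm (τ j)), some (κ.symm (κ c), 0)) := h3
      have h4' : y ((σ.symm (σ i), τ.symm (τ j)), some (κ.symm (κ c), 2)) =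
          v (Sum.inr (τ.symm (τ j), κ.symm (κ c))) -
          y ((σ.symm (σ i), τ.symm (τ j)), some (κ.symm (κ c), 0)) := h4
      rw [e1, e2, κ.symm_apply_apply] at h3'
      rw [e1, e2, κ.symm_apply_apply] at h4'
      exact ⟨h3', h4'⟩
    · have h2' : y ((σ.symm (σ i), τ.symm (τ j)), none) =
          ∑ c, y ((σ.symm (σ i), τ.symm (τ j)), some (κ.symm c, 0)) - 1 := h2
      rw [e1, e2] at h2'
      rw [h2']
      congr 1
      exact Equiv.sum_comp κ.symm (fun c => y ((i, j), some (c, 0)))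

/-- **All pairs.** -/
theorem ov_upper (n d : ℕ) : ∃ P : LP (OVI (Fin n) (Fin d)) (Fin (n ^ 2 * (3 * d + 1))),
    (∀ σ τ κ, ∃ π, P.IsAut (gO σ τ κ) π) ∧
      ∀ u w : Fin n → Fin d → Bool, P.Acc (ovVec u w) ↔ ¬ Orth u w := by
  classical
  have hc : Fintype.card ((Fin n × Fin n) × Option (Fin d × Fin 3)) = n ^ 2 * (3 * d + 1) := by
    rw [Fintype.card_prod, Fintype.card_prod, Fintype.card_option, Fintype.card_prod,
      Fintype.card_fin, Fintype.card_fin, Fintype.card_fin]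
    ring
  let e := Fintype.equivFinOfCardEq hc
  refine ⟨(pairLP (Fin n) (Fin d)).reindex e, fun σ τ κ =>
    ⟨_, LP.reindex_aut e (pairLP_sym σ τ κ)⟩, fun u w => ?_⟩
  rw [LP.reindex_acc, pairLP_acc]

end upper

/-- The dimension used in the lower bound: polylogarithmic in `n`. -/
def dimOV (k n : ℕ) : ℕ := (4 * Nat.log 2 n) ^ k + 5 * Nat.log 2 n + 2

/-- **No exponent below two.** -/
theorem ov_exact (a b : ℕ) (hb : 0 < b) (hab : a < 2 * b) : ∃ k : ℕ,
    ∀ K : ℕ, ∃ n0 : ℕ, ∀ n : ℕ, n0 ≤ n → ∀ R : RLAlg (OVI (Fin n) (Fin (dimOV k n))),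
      (∀ σ τ κ, R.Sym (gO σ τ κ)) →
      R.size ≤ K * ((dimOV k n : ℝ) + 1) ^ K * (n : ℝ) ^ ((a : ℝ) / b) → ¬ R.DecidesOV := by
  have hbR : (0 : ℝ) < b := by exact_mod_cast hb
  have habR : (a : ℝ) / b < 2 := by
    rw [div_lt_iff₀ hbR]
    exact_mod_cast hab
  have hab0 : 0 ≤ (a : ℝ) / b := by positivity
  set δ : ℝ := (1 - (a : ℝ) / b / 2) / 2 with hδ
  have hδ0 : 0 < δ := by linarith
  obtain ⟨k, hk, hk'⟩ := exists_kk (10 ^ 6) δ hδ0
  refine ⟨k, fun K => ?_⟩
  obtain ⟨n0, hn0⟩ := poly_lt δ hδ0 (K * 4 ^ (K + 1) * 2 ^ (k * K) + k * K)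
  refine ⟨2 ^ (n0 + k), fun n hn R hR hsize hdec => ?_⟩
  set h : ℕ := Nat.log 2 n with hh
  have hnpos : n ≠ 0 := by
    have : 0 < 2 ^ (n0 + k) := by positivity
    omega
  have hle : 2 ^ h ≤ n := Nat.pow_log_le_self 2 hnpos
  have hlt : n < 2 ^ (h + 1) := Nat.lt_pow_succ_log_self (by norm_num) n
  have hh1 : n0 + k ≤ h := by
    have h1 : 2 ^ (n0 + k) < 2 ^ (h + 1) := lt_of_le_of_lt hn hlt
    have h2 := (Nat.pow_lt_pow_iff_right (by norm_num : 1 < 2)).1 h1
    omega
  obtain ⟨e, he⟩ : ∃ e, n = 2 ^ h + e := ⟨n - 2 ^ h, by omega⟩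
  have he' : e < 2 ^ h := by
    rw [pow_succ] at hlt
    omega
  have h1 := ov_lower (k := k) (h := h) (e := e) (n := n) (d := dimOV k n) hk (by omega) he he'
    rfl R hR hdec
  have h3 : (2 : ℝ) ^ ((1 - δ) * ((h + h : ℕ) : ℝ)) ≤ R.size + 1 := by
    refine le_trans (Real.rpow_le_rpow_of_exponent_le (by norm_num) ?_) h1
    apply mul_le_mul_of_nonneg_right _ (Nat.cast_nonneg _)
    linarith
  -- the size of the algorithm
  have hnle : (n : ℝ) ^ ((a : ℝ) / b) ≤ 4 * 2 ^ ((a : ℝ) / b * h) := by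
    have e1 : (n : ℝ) ≤ 2 ^ (h + 1) := by exact_mod_cast hlt.le
    have e2 : (n : ℝ) ^ ((a : ℝ) / b) ≤ ((2 : ℝ) ^ (h + 1)) ^ ((a : ℝ) / b) :=
      Real.rpow_le_rpow (Nat.cast_nonneg _) e1 hab0
    have e3 : ((2 : ℝ) ^ (h + 1)) ^ ((a : ℝ) / b) = 2 ^ ((a : ℝ) / b) * 2 ^ ((a : ℝ) / b * h) := by
      rw [← Real.rpow_natCast, ← Real.rpow_mul (by norm_num), ← Real.rpow_add (by norm_num)]
      congr 1
      push_cast
      ring
    have e4 : (2 : ℝ) ^ ((a : ℝ) / b) ≤ 4 := by
      have : (2 : ℝ) ^ ((a : ℝ) / b) ≤ 2 ^ (2 : ℝ) :=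
        Real.rpow_le_rpow_of_exponent_le (by norm_num) habR.le
      refine this.trans (le_of_eq ?_)
      norm_num
    rw [e3] at e2
    refine e2.trans ?_
    exact mul_le_mul_of_nonneg_right e4 (by positivity)
  have hdim : ((dimOV k n : ℝ) + 1) ≤ 4 * 2 ^ k * ((h + h : ℕ) + 1 : ℝ) ^ k := by
    have e1 : dimOV k n + 1 ≤ 4 * (2 ^ k * (h + h + 1) ^ k) := by
      unfold dimOV
      rw [← hh, ← mul_pow]
      have e2 : (4 * h) ^ k ≤ (2 * (h + h + 1)) ^ k := Nat.pow_le_pow_left (by omega) k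
      have e3 : 2 * (h + h + 1) ≤ (2 * (h + h + 1)) ^ k :=
        Nat.le_self_pow (by omega) _
      omega
    have e4 : ((dimOV k n + 1 : ℕ) : ℝ) ≤ ((4 * (2 ^ k * (h + h + 1) ^ k) : ℕ) : ℝ) := by
      exact_mod_cast e1
    push_cast at e4 ⊢
    linarith
  have hpoly : (K : ℝ) * ((dimOV k n : ℝ) + 1) ^ K * 4 + 1 < 2 ^ (δ * ((h + h : ℕ) : ℝ)) := by
    refine lt_of_le_of_lt ?_ (hn0 (h + h) (by omega))
    set K' : ℕ := K * 4 ^ (K + 1) * 2 ^ (k * K) + k * K with hK'
    set z : ℝ := ((h + h : ℕ) : ℝ) + 1 with hz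
    have hz1 : 1 ≤ z := by
      rw [hz]
      have : (0 : ℝ) ≤ ((h + h : ℕ) : ℝ) := Nat.cast_nonneg _
      linarith
    have e1 : ((dimOV k n : ℝ) + 1) ^ K ≤ (4 * 2 ^ k * z ^ k) ^ K :=
      pow_le_pow_left₀ (by positivity) hdim K
    have e2 : (4 * 2 ^ k * z ^ k) ^ K = 4 ^ K * 2 ^ (k * K) * z ^ (k * K) := by
      rw [mul_pow, mul_pow, ← pow_mul, ← pow_mul]
    have e3 : z ^ (k * K) ≤ z ^ K' := pow_le_pow_right₀ hz1 (by omega)
    have e4 : (K : ℝ) * 4 ^ (K + 1) * 2 ^ (k * K) ≤ K' := by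
      rw [hK']
      push_cast
      have : (0 : ℝ) ≤ (k : ℝ) * K := by positivity
      linarith
    have e5 : (K : ℝ) * ((dimOV k n : ℝ) + 1) ^ K * 4 ≤ K' * z ^ K' := by
      calc (K : ℝ) * ((dimOV k n : ℝ) + 1) ^ K * 4
          ≤ (K : ℝ) * (4 ^ K * 2 ^ (k * K) * z ^ (k * K)) * 4 := by
            rw [← e2]
            exact mul_le_mul_of_nonneg_right
              (mul_le_mul_of_nonneg_left e1 (Nat.cast_nonneg _)) (by norm_num)
        _ = (K : ℝ) * 4 ^ (K + 1) * 2 ^ (k * K) * z ^ (k * K) := by ring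
        _ ≤ (K' : ℝ) * z ^ K' := mul_le_mul e4 e3 (by positivity) (by positivity)
    linarith
  set w : ℝ := 2 ^ ((a : ℝ) / b * h) with hw
  have hw1 : (1 : ℝ) ≤ w := Real.one_le_rpow (by norm_num) (by positivity)
  have hK0 : (0 : ℝ) ≤ (K : ℝ) * ((dimOV k n : ℝ) + 1) ^ K := by positivity
  have h5 : R.size ≤ (K : ℝ) * ((dimOV k n : ℝ) + 1) ^ K * 4 * w := by
    refine hsize.trans ?_
    refine (mul_le_mul_of_nonneg_left hnle hK0).trans (le_of_eq ?_)
    ring
  have h6 : (2 : ℝ) ^ ((1 - δ) * ((h + h : ℕ) : ℝ)) = 2 ^ (δ * ((h + h : ℕ) : ℝ)) * w := by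
    rw [hw, ← Real.rpow_add (by norm_num)]
    congr 1
    rw [hδ]
    push_cast
    ring
  rw [h6] at h3
  have h7 := mul_lt_mul_of_pos_right hpoly (by linarith : (0 : ℝ) < w)
  nlinarith

end Pool.Agent.H550R2.Lin
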